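import Mathlib

-- part MP_57c4af_pr.One
section

/-! One-tile inequality, its tensorisation, and a Jensen inequality. -/

open MeasureTheory Set Function
open scoped ENNReal

namespace Pool.Agent.MP_57c4af_pr

lemma bern2 (z : ℝ) (hz : 0 ≤ z) (n : ℕ) :
    1 + n * z + n * (n - 1) / 2 * z ^ 2 ≤ (1 + z) ^ n := by
  induction n with
  | zero => simp
  | succ k ih =>
    have hk : (0 : ℝ) ≤ (k : ℝ) * (k - 1) := by
      rcases Nat.eq_zero_or_pos k with h | h
      · simp [h]
      · have : (1 : ℝ) ≤ k := by exact_mod_cast h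
        exact mul_nonneg (by linarith) (by linarith)
    have h3 : 0 ≤ (k : ℝ) * (k - 1) / 2 * z ^ 3 := by positivity
    have h4 := mul_le_mul_of_nonneg_right ih (show (0 : ℝ) ≤ 1 + z by linarith)
    rw [pow_succ (1 + z) k]
    push_cast
    nlinarith [h3, h4]

lemma integrable_of_bdd {Ω : Type*} [MeasurableSpace Ω] (μ : Measure Ω) [IsFiniteMeasure μ]
    {f : Ω → ℝ} (hf : Measurable f) (h0 : ∀ ω, 0 ≤ f ω) (h1 : ∀ ω, f ω ≤ 1) : Integrable f μ :=
  Integrable.of_bound hf.aestronglyMeasurable 1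
    (Filter.Eventually.of_forall fun ω => by rw [Real.norm_eq_abs, abs_of_nonneg (h0 ω)]; exact h1 ω)

lemma one_real {Ω : Type*} [MeasurableSpace Ω] (μ : Measure Ω) [IsProbabilityMeasure μ]
    (α β : Ω → ℝ) (mα : Measurable α) (mβ : Measurable β)
    (α0 : ∀ ω, 0 ≤ α ω) (α1 : ∀ ω, α ω ≤ 1) (β0 : ∀ ω, 0 ≤ β ω) (β1 : ∀ ω, β ω ≤ 1)
    (T : Set Ω) (hT : MeasurableSet T) (κ : ℝ) (hκ0 : 0 < κ) (hκ : κ ≤ μ.real T)
    (C : ℕ) (hC : 1 ≤ 2 * κ * (C - 1))
    (tα : ∀ ω ∈ T, ∀ ω', α ω' ≤ α ω) (tβ : ∀ ω ∈ T, ∀ ω', β ω' ≤ β ω) :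
    ((∫ ω, α ω ∂μ) * (∫ ω, β ω ∂μ)) ^ C ≤ ∫ ω, (α ω * β ω) ^ C ∂μ := by
  have hC1 : (1 : ℝ) < C := by
    by_contra h
    push Not at h
    have : 2 * κ * ((C : ℝ) - 1) ≤ 0 := mul_nonpos_of_nonneg_of_nonpos (by linarith) (by linarith)
    linarith
  have hC0 : C ≠ 0 := by rintro rfl; norm_num at hC1
  obtain ⟨ω0, hω0⟩ : T.Nonempty := by
    rcases T.eq_empty_or_nonempty with h | h
    · simp [h] at hκ; linarith
    · exact h
  set a := α ω0
  set b := β ω0
  set A := ∫ ω, α ω ∂μ with hA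
  set B := ∫ ω, β ω ∂μ with hB
  have iα := integrable_of_bdd μ mα α0 α1
  have iβ := integrable_of_bdd μ mβ β0 β1
  have ab0 : ∀ ω, 0 ≤ α ω * β ω := fun ω => mul_nonneg (α0 ω) (β0 ω)
  have ab1 : ∀ ω, α ω * β ω ≤ 1 := fun ω => mul_le_one₀ (α1 ω) (β0 ω) (β1 ω)
  have iαβ : Integrable (fun ω => α ω * β ω) μ := integrable_of_bdd μ (mα.mul mβ) ab0 ab1
  have ipow : Integrable (fun ω => (α ω * β ω) ^ C) μ :=
    integrable_of_bdd μ ((mα.mul mβ).pow_const C) (fun ω => pow_nonneg (ab0 ω) C)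
      (fun ω => pow_le_one₀ (ab0 ω) (ab1 ω))
  have A0 : 0 ≤ A := integral_nonneg α0
  have B0 : 0 ≤ B := integral_nonneg β0
  have Aa : A ≤ a := by
    have := integral_mono iα (integrable_const a) (fun ω => tα ω0 hω0 ω)
    simpa using this
  have Bb : B ≤ b := by
    have := integral_mono iβ (integrable_const b) (fun ω => tβ ω0 hω0 ω)
    simpa using this
  rcases (mul_nonneg A0 B0).eq_or_lt with hD | hD
  · rw [← hD, zero_pow hC0]
    exact integral_nonneg fun ω => pow_nonneg (ab0 ω) C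
  have Apos : 0 < A := lt_of_le_of_ne A0 (by rintro h; rw [← h] at hD; simp at hD)
  have Bpos : 0 < B := lt_of_le_of_ne B0 (by rintro h; rw [← h] at hD; simp at hD)
  set D := A * B with hDdef
  set x := a / A - 1 with hx
  set y := b / B - 1 with hy
  have x0 : 0 ≤ x := by rw [hx, sub_nonneg, le_div_iff₀ Apos]; linarith
  have y0 : 0 ≤ y := by rw [hy, sub_nonneg, le_div_iff₀ Bpos]; linarith
  have ha : a = A * (1 + x) := by rw [hx]; field_simp; ring
  have hb : b = B * (1 + y) := by rw [hy]; field_simp; ring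
  set Q : ℝ := C * (C - 1) / 2 * (4 * (x * y)) with hQ
  have Q0 : 0 ≤ Q := by
    have : (0 : ℝ) ≤ C - 1 := by linarith
    positivity
  have hpt : ∀ ω, D ^ C * (1 + C * (α ω * β ω / D - 1) + T.indicator (fun _ => Q) ω)
      ≤ (α ω * β ω) ^ C := by
    intro ω
    have e1 : (α ω * β ω) ^ C = D ^ C * (1 + (α ω * β ω / D - 1)) ^ C := by
      rw [← mul_pow]; congr 1; field_simp; ring
    rw [e1]
    apply mul_le_mul_of_nonneg_left _ (pow_nonneg hD.le C)
    by_cases hω : ω ∈ T
    · rw [indicator_of_mem hω]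
      have e2 : α ω = a := le_antisymm (tα ω0 hω0 ω) (tα ω hω ω0)
      have e3 : β ω = b := le_antisymm (tβ ω0 hω0 ω) (tβ ω hω ω0)
      have e4 : α ω * β ω / D - 1 = x + y + x * y := by
        rw [e2, e3, ha, hb, hDdef]; field_simp; ring
      rw [e4]
      have xy0 : 0 ≤ x * y := mul_nonneg x0 y0
      refine le_trans ?_ (bern2 _ (by positivity) C)
      have h5 : 4 * (x * y) ≤ (x + y + x * y) ^ 2 := by
        nlinarith [sq_nonneg (x - y), mul_nonneg xy0 (add_nonneg x0 y0), mul_nonneg xy0 xy0]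
      have h6 : (0 : ℝ) ≤ C * (C - 1) / 2 := by
        have : (0 : ℝ) ≤ C - 1 := by linarith
        positivity
      have := mul_le_mul_of_nonneg_left h5 h6
      linarith
    · rw [indicator_of_notMem hω, add_zero]
      apply one_add_mul_le_pow
      have : 0 ≤ α ω * β ω / D := div_nonneg (ab0 ω) hD.le
      linarith
  have iind : Integrable (T.indicator fun _ => Q) μ := (integrable_const Q).indicator hT
  have i2 : Integrable (fun ω => α ω * β ω / D) μ := iαβ.div_const D
  have i3 : Integrable (fun ω => α ω * β ω / D - 1) μ := i2.sub (integrable_const 1)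
  have i4 : Integrable (fun ω => C * (α ω * β ω / D - 1)) μ := i3.const_mul _
  have i1 : Integrable (fun ω => 1 + C * (α ω * β ω / D - 1)) μ :=
    (integrable_const 1).add i4
  have hint := integral_mono (((i1.add iind)).const_mul (D ^ C)) ipow hpt
  refine le_trans ?_ hint
  rw [integral_const_mul, integral_add' i1 iind,
    integral_add (integrable_const 1) i4,
    integral_const_mul, integral_sub i2 (integrable_const 1), integral_div,
    integral_indicator hT]
  simp only [integral_const, probReal_univ, smul_eq_mul, mul_one,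
    MeasurableSet.univ, measureReal_restrict_apply, univ_inter]
  have hcov : a * B + b * A - a * b ≤ ∫ ω, α ω * β ω ∂μ := by
    have h1 : ∀ ω, a * β ω + b * α ω - a * b ≤ α ω * β ω := by
      intro ω
      have := mul_nonneg (sub_nonneg.2 (tα ω0 hω0 ω)) (sub_nonneg.2 (tβ ω0 hω0 ω))
      nlinarith
    have := integral_mono (((iβ.const_mul a).add (iα.const_mul b)).sub (integrable_const (a * b)))
      iαβ h1
    rw [integral_sub' ((iβ.const_mul a).add (iα.const_mul b)) (integrable_const _),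
      integral_add' (iβ.const_mul a) (iα.const_mul b), integral_const_mul, integral_const_mul]
      at this
    simpa using this
  have h7 : -(x * y) ≤ (∫ ω, α ω * β ω ∂μ) / D - 1 := by
    rw [le_sub_iff_add_le, le_div_iff₀ hD]
    refine le_trans (le_of_eq ?_) hcov
    rw [ha, hb, hDdef]; ring
  have h8 : κ * Q ≤ μ.real T * Q := mul_le_mul_of_nonneg_right hκ Q0
  have xy0 : 0 ≤ x * y := mul_nonneg x0 y0
  have h9 : C * (x * y) ≤ κ * Q := by
    have : κ * Q = (2 * κ * (C - 1)) * (C * (x * y)) := by rw [hQ]; ring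
    rw [this]
    exact le_mul_of_one_le_left (by positivity) hC
  have h10 := mul_le_mul_of_nonneg_left h7 (show (0 : ℝ) ≤ C by positivity)
  have h11 : 1 ≤ 1 + C * ((∫ ω, α ω * β ω ∂μ) / D - 1) + μ.real T * Q := by linarith
  exact le_mul_of_one_le_right (pow_nonneg hD.le C) h11

lemma toReal_le_one' {x : ℝ≥0∞} (h : x ≤ 1) : x.toReal ≤ 1 := by
  have := ENNReal.toReal_mono ENNReal.one_ne_top h
  simpa using this

lemma lint_eq {Ω : Type*} [MeasurableSpace Ω] (μ : Measure Ω) [IsProbabilityMeasure μ]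
    {f : Ω → ℝ≥0∞} (mf : Measurable f) (f1 : ∀ ω, f ω ≤ 1) :
    ∫⁻ ω, f ω ∂μ = ENNReal.ofReal (∫ ω, (f ω).toReal ∂μ) := by
  rw [integral_toReal mf.aemeasurable
    (Filter.Eventually.of_forall fun ω => (f1 ω).trans_lt ENNReal.one_lt_top), ENNReal.ofReal_toReal]
  refine ne_top_of_le_ne_top ENNReal.one_ne_top ?_
  simpa using lintegral_mono (μ := μ) f1

lemma lint_le_one {Ω : Type*} [MeasurableSpace Ω] (μ : Measure Ω) [IsProbabilityMeasure μ]
    {f : Ω → ℝ≥0∞} (f1 : ∀ ω, f ω ≤ 1) : ∫⁻ ω, f ω ∂μ ≤ 1 := by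
  simpa using lintegral_mono (μ := μ) f1

lemma one_enn {Ω : Type*} [MeasurableSpace Ω] (μ : Measure Ω) [IsProbabilityMeasure μ]
    (α β : Ω → ℝ≥0∞) (mα : Measurable α) (mβ : Measurable β)
    (α1 : ∀ ω, α ω ≤ 1) (β1 : ∀ ω, β ω ≤ 1)
    (T : Set Ω) (hT : MeasurableSet T) (κ : ℝ) (hκ0 : 0 < κ) (hκ : κ ≤ μ.real T)
    (C : ℕ) (hC : 1 ≤ 2 * κ * (C - 1))
    (tα : ∀ ω ∈ T, ∀ ω', α ω' ≤ α ω) (tβ : ∀ ω ∈ T, ∀ ω', β ω' ≤ β ω) :
    ((∫⁻ ω, α ω ∂μ) * (∫⁻ ω, β ω ∂μ)) ^ C ≤ ∫⁻ ω, (α ω * β ω) ^ C ∂μ := by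
  have nα : ∀ ω, α ω ≠ ∞ := fun ω => ne_top_of_le_ne_top ENNReal.one_ne_top (α1 ω)
  have nβ : ∀ ω, β ω ≠ ∞ := fun ω => ne_top_of_le_ne_top ENNReal.one_ne_top (β1 ω)
  have h := one_real μ (fun ω => (α ω).toReal) (fun ω => (β ω).toReal) mα.ennreal_toReal
    mβ.ennreal_toReal (fun _ => ENNReal.toReal_nonneg) (fun ω => toReal_le_one' (α1 ω))
    (fun _ => ENNReal.toReal_nonneg) (fun ω => toReal_le_one' (β1 ω)) T hT κ hκ0 hκ C hC
    (fun ω h ω' => ENNReal.toReal_mono (nα ω) (tα ω h ω'))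
    (fun ω h ω' => ENNReal.toReal_mono (nβ ω) (tβ ω h ω'))
  have mp : Measurable fun ω => (α ω * β ω) ^ C := (mα.mul mβ).pow_const C
  rw [lint_eq μ mα α1, lint_eq μ mβ β1, lint_eq μ mp
    (fun ω => pow_le_one₀ zero_le (mul_le_one' (α1 ω) (β1 ω))),
    ← ENNReal.ofReal_mul (integral_nonneg fun _ => ENNReal.toReal_nonneg),
    ← ENNReal.ofReal_pow (mul_nonneg (integral_nonneg fun _ => ENNReal.toReal_nonneg)
      (integral_nonneg fun _ => ENNReal.toReal_nonneg))]
  apply ENNReal.ofReal_le_ofReal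
  simpa only [ENNReal.toReal_pow, ENNReal.toReal_mul, Pi.mul_apply] using h

lemma jensen_pow {Ω : Type*} [MeasurableSpace Ω] (μ : Measure Ω) [IsProbabilityMeasure μ]
    (h : Ω → ℝ≥0∞) (mh : Measurable h) (h1 : ∀ ω, h ω ≤ 1) (m : ℕ) :
    (∫⁻ ω, h ω ∂μ) ^ m ≤ ∫⁻ ω, (h ω) ^ m ∂μ := by
  rw [lint_eq μ mh h1, lint_eq μ (mh.pow_const m) (fun ω => pow_le_one₀ zero_le (h1 ω)),
    ← ENNReal.ofReal_pow (integral_nonneg fun _ => ENNReal.toReal_nonneg)]
  apply ENNReal.ofReal_le_ofReal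
  have i1 := integrable_of_bdd μ mh.ennreal_toReal (fun _ => ENNReal.toReal_nonneg)
    (fun ω => toReal_le_one' (h1 ω))
  have i2 := integrable_of_bdd μ (mh.ennreal_toReal.pow_const m)
    (fun _ => pow_nonneg ENNReal.toReal_nonneg m)
    (fun ω => pow_le_one₀ ENNReal.toReal_nonneg (toReal_le_one' (h1 ω)))
  have := (convexOn_pow (𝕜 := ℝ) m).map_integral_le (μ := μ) (f := fun ω => (h ω).toReal)
    (continuous_pow m).continuousOn isClosed_Ici
    (Filter.Eventually.of_forall fun _ => ENNReal.toReal_nonneg) i1 i2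
  simpa only [ENNReal.toReal_pow] using this

lemma tensor {δ J Z : Type} [Fintype δ] [DecidableEq δ] [DecidableEq J] [MeasurableSpace Z]
    (ν : Measure Z) [IsProbabilityMeasure ν] (τ : δ → J) (Top : δ → Set Z)
    (hTop : ∀ i, MeasurableSet (Top i)) (κ : ℝ) (hκ0 : 0 < κ) (hκ1 : κ ≤ 1)
    (hν : ∀ i, κ ≤ ν.real (Top i)) (B : ℕ)
    (hB : ∀ j, (Finset.univ.filter fun i => τ i = j).card ≤ B) (C : ℕ)
    (hC : 1 ≤ 2 * κ ^ B * (C - 1)) (F G : (δ → Z) → ℝ≥0∞) (mF : Measurable F)
    (mG : Measurable G) (F1 : ∀ z, F z ≤ 1) (G1 : ∀ z, G z ≤ 1)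
    (hF : ∀ j z z', (∀ i, τ i ≠ j → z' i = z i) → (∀ i, τ i = j → z' i ∈ Top i) → F z ≤ F z')
    (hG : ∀ j z z', (∀ i, τ i ≠ j → z' i = z i) → (∀ i, τ i = j → z' i ∈ Top i) → G z ≤ G z') :
    ((∫⁻ z, F z ∂Measure.pi fun _ => ν) * (∫⁻ z, G z ∂Measure.pi fun _ => ν)) ^ C
      ≤ ∫⁻ z, (F z * G z) ^ C ∂Measure.pi fun _ => ν := by
  have mFG : Measurable fun z => (F z * G z) ^ C := (mF.mul mG).pow_const C
  have lm1 : ∀ (H : (δ → Z) → ℝ≥0∞), (∀ z, H z ≤ 1) → ∀ (D : Finset δ) z,
      lmarginal (fun _ => ν) D H z ≤ 1 := fun H H1 D z => lint_le_one _ fun _ => H1 _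
  have key : ∀ s : Finset J, ∀ z,
      (lmarginal (fun _ => ν) (Finset.univ.filter fun i => τ i ∈ s) F z *
        lmarginal (fun _ => ν) (Finset.univ.filter fun i => τ i ∈ s) G z) ^ C ≤
      lmarginal (fun _ => ν) (Finset.univ.filter fun i => τ i ∈ s)
        (fun z => (F z * G z) ^ C) z := by
    intro s
    induction s using Finset.induction_on with
    | empty => intro z; simp
    | insert j s hj ih =>
      intro z
      set D := Finset.univ.filter fun i => τ i ∈ s with hD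
      set t := Finset.univ.filter fun i => τ i = j with ht
      have e : (Finset.univ.filter fun i => τ i ∈ insert j s) = t ∪ D := by
        ext i; simp [ht, hD]
      have hd : Disjoint t D := by
        rw [Finset.disjoint_left]
        intro i h1 h2
        simp only [ht, hD, Finset.mem_filter, Finset.mem_univ, true_and] at h1 h2
        exact hj (h1 ▸ h2)
      rw [e, lmarginal_union _ F mF hd, lmarginal_union _ G mG hd, lmarginal_union _ _ mFG hd]
      refine le_trans ?_ (lmarginal_mono (f := fun z => (lmarginal (fun _ => ν) D F z *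
        lmarginal (fun _ => ν) D G z) ^ C) ih z)
      have top : ∀ (H : (δ → Z) → ℝ≥0∞),
          (∀ j z z', (∀ i, τ i ≠ j → z' i = z i) → (∀ i, τ i = j → z' i ∈ Top i) → H z ≤ H z') →
          ∀ w ∈ Set.univ.pi (fun i : t => Top i), ∀ w' : t → Z,
            lmarginal (fun _ => ν) D H (updateFinset z t w') ≤
              lmarginal (fun _ => ν) D H (updateFinset z t w) := by
        intro H hH w hw w'
        refine lintegral_mono fun y => hH j _ _ ?_ ?_
        · intro i hi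
          have : i ∉ t := by simp [ht, hi]
          simp [updateFinset, this]
        · intro i hi
          have h1 : i ∈ t := by simp [ht, hi]
          have h2 : i ∉ D := fun h => Finset.disjoint_left.1 hd h1 h
          simp only [updateFinset, h1, h2, dite_true, dite_false]
          exact hw ⟨i, h1⟩ (mem_univ _)
      refine one_enn (Measure.pi fun _ : t => ν)
        (fun w => lmarginal (fun _ => ν) D F (updateFinset z t w))
        (fun w => lmarginal (fun _ => ν) D G (updateFinset z t w))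
        ((mF.lmarginal _).comp measurable_updateFinset)
        ((mG.lmarginal _).comp measurable_updateFinset)
        (fun w => lm1 F F1 _ _) (fun w => lm1 G G1 _ _)
        (Set.univ.pi fun i : t => Top i) (MeasurableSet.univ_pi fun i => hTop i) (κ ^ B)
        (by positivity) ?_ C hC (top F hF) (top G hG)
      rw [Measure.real, Measure.pi_pi, ENNReal.toReal_prod]
      calc κ ^ B ≤ κ ^ t.card := pow_le_pow_of_le_one hκ0.le hκ1 (hB j)
        _ = ∏ _i : t, κ := by simp
        _ ≤ _ := Finset.prod_le_prod (fun _ _ => hκ0.le) fun i _ => hν i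
  have z0 : δ → Z := fun _ => (nonempty_of_isProbabilityMeasure ν).some
  have := key (Finset.univ.image τ) z0
  have e : (Finset.univ.filter fun i => τ i ∈ Finset.univ.image τ) = Finset.univ := by
    ext i; simp
  rw [e, lmarginal_univ, lmarginal_univ, lmarginal_univ] at this
  exact this

end Pool.Agent.MP_57c4af_pr

end

-- part MP_57c4af_pr.Chain
section

/-! The chain of couplings: sharing one more class of sites between two copies. -/

open MeasureTheory Set Function
open scoped ENNReal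

namespace Pool.Agent.MP_57c4af_pr

lemma mp_inj {ι κ E : Type} [Fintype ι] [Fintype κ] [MeasurableSpace E] (μ : Measure E)
    [IsProbabilityMeasure μ] (σ : ι → κ) (hσ : Injective σ) :
    MeasurePreserving (fun (ω : κ → E) i => ω (σ i)) (Measure.pi fun _ => μ)
      (Measure.pi fun _ => μ) := by
  refine ⟨by fun_prop, ?_⟩
  have := Measure.map_infinitePi_infinitePi_of_inj (P := fun _ : κ => μ) hσ
  rwa [Measure.infinitePi_eq_pi, Measure.infinitePi_eq_pi] at this

lemma mp_site {κ E : Type} [Fintype κ] [MeasurableSpace E] (μ : Measure E)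
    [IsProbabilityMeasure μ] (φ : κ → E × E → E)
    (hφ : ∀ k, MeasurePreserving (φ k) (μ.prod μ) μ) :
    MeasurePreserving (fun p : (κ → E) × (κ → E) => fun k => φ k (p.1 k, p.2 k))
      ((Measure.pi fun _ => μ).prod (Measure.pi fun _ => μ)) (Measure.pi fun _ => μ) := by
  have h1 := (measurePreserving_arrowProdEquivProdArrow E E κ (fun _ => μ) (fun _ => μ)).symm
  have h2 := measurePreserving_pi (fun _ : κ => μ.prod μ) (fun _ => μ) hφ
  exact h2.comp h1

/-- the copy of site `i` read by the second configuration -/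
def sig {ι : Type} [DecidableEq ι] (T : Finset ι) (i : ι) : ι ⊕ ι :=
  if i ∈ T then Sum.inl i else Sum.inr i

lemma sig_elim {ι : Type} [DecidableEq ι] (T : Finset ι) (i : ι) :
    (sig T i).elim id id = i := by
  unfold sig; split_ifs <;> rfl

lemma sig_inj {ι : Type} [DecidableEq ι] (T : Finset ι) : Injective (sig T) := by
  intro i j h
  rw [← sig_elim T i, h, sig_elim]

/-- the two-copy expectation, the sites of `T` being shared -/
noncomputable def pp {ι E : Type} [Fintype ι] [DecidableEq ι] [MeasurableSpace E] (μ : Measure E)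
    (f g : (ι → E) → ℝ≥0∞) (T : Finset ι) : ℝ≥0∞ :=
  ∫⁻ ω : ι ⊕ ι → E, f (fun i => ω (Sum.inl i)) * g (fun i => ω (sig T i)) ∂Measure.pi fun _ => μ

section
variable {ι E : Type} [Fintype ι] [DecidableEq ι] [MeasurableSpace E] (μ : Measure E)
  [IsProbabilityMeasure μ] (f g : (ι → E) → ℝ≥0∞)

lemma pp_empty (mf : Measurable f) (mg : Measurable g) :
    pp μ f g ∅ = (∫⁻ x, f x ∂Measure.pi fun _ => μ) * ∫⁻ x, g x ∂Measure.pi fun _ => μ := by
  have h := (measurePreserving_sumPiEquivProdPi (X := fun _ : ι ⊕ ι => E)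
    (fun _ => μ)).lintegral_comp (f := fun p => f p.1 * g p.2) (by fun_prop)
  rw [lintegral_prod_mul mf.aemeasurable mg.aemeasurable] at h
  rw [← h]
  simp only [pp, sig, Finset.notMem_empty, if_false]
  rfl

lemma pp_univ (mf : Measurable f) (mg : Measurable g) :
    pp μ f g Finset.univ = ∫⁻ x, f x * g x ∂Measure.pi fun _ => μ := by
  have h := (mp_inj μ (Sum.inl : ι → ι ⊕ ι) Sum.inl_injective).lintegral_comp
    (f := fun x => f x * g x) (by fun_prop)
  rw [← h]
  simp only [pp, sig, Finset.mem_univ, if_true]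

lemma stage {J : Type} [DecidableEq J] (mf : Measurable f) (mg : Measurable g)
    (f1 : ∀ x, f x ≤ 1) (g1 : ∀ x, g x ≤ 1) (S Sg : Finset ι) (φ : ι → E × E → E)
    (hφ : ∀ k, MeasurePreserving (φ k) (μ.prod μ) μ)
    (hS : ∀ i ∈ Sg, ∀ e e', φ i (e, e') = e') (τ : ι → J) (Top : ι → Set E)
    (hTop : ∀ i, MeasurableSet (Top i)) (κ : ℝ) (hκ0 : 0 < κ) (hκ1 : κ ≤ 1)
    (hν : ∀ i, κ ≤ μ.real (Top i)) (B : ℕ)
    (hB : ∀ j, (Finset.univ.filter fun i => τ i = j).card ≤ B) (C : ℕ) (hC0 : C ≠ 0)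
    (hC : 1 ≤ 2 * κ ^ (2 * B) * (C - 1))
    (hf : ∀ (x : ι → E) j (a a' : ι → E), (∀ i, τ i ≠ j → a' i = a i) →
      (∀ i, τ i = j → a' i ∈ Top i) → f (fun i => φ i (x i, a i)) ≤ f (fun i => φ i (x i, a' i)))
    (hg : ∀ (x : ι → E) j (a a' : ι → E), (∀ i, τ i ≠ j → a' i = a i) →
      (∀ i, τ i = j → a' i ∈ Top i) → g (fun i => φ i (x i, a i)) ≤ g (fun i => φ i (x i, a' i))) :
    pp μ f g S ^ (2 * C) ≤ pp μ f g (S ∪ Sg) := by
  set P2 : Measure (ι ⊕ ι → E) := Measure.pi fun _ => μ with hP2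
  have mφ : ∀ k, Measurable (φ k) := fun k => (hφ k).measurable
  have mp := mp_site μ (fun k : ι ⊕ ι => φ (k.elim id id)) (fun k => hφ _)
  let F : (ι ⊕ ι → E) → (ι ⊕ ι → E) → ℝ≥0∞ := fun x a =>
    f (fun i => φ i (x (Sum.inl i), a (Sum.inl i)))
  let G : Finset ι → (ι ⊕ ι → E) → (ι ⊕ ι → E) → ℝ≥0∞ := fun R x a =>
    g (fun i => φ i (x (sig S i), a (sig R i)))
  have mF : Measurable (uncurry F) :=
    mf.comp (measurable_pi_lambda _ fun i => (mφ i).comp (by fun_prop))
  have mG : ∀ R, Measurable (uncurry (G R)) := fun R =>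
    mg.comp (measurable_pi_lambda _ fun i => (mφ i).comp (by fun_prop))
  have rep : ∀ R : Finset ι, (∀ i, i ∉ Sg → sig R i = sig S i) →
      pp μ f g R = ∫⁻ x, ∫⁻ a, F x a * G R x a ∂P2 ∂P2 := by
    intro R hR
    have h := mp.lintegral_comp
      (f := fun ω : ι ⊕ ι → E => f (fun i => ω (Sum.inl i)) * g (fun i => ω (sig R i)))
      (by fun_prop)
    rw [pp, ← h, ← lintegral_prod (fun p => F p.1 p.2 * G R p.1 p.2)
      (mF.mul (mG R)).aemeasurable]
    refine lintegral_congr fun p => ?_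
    simp only [F, G, Sum.elim_inl, id, sig_elim]
    congr 2
    funext i
    by_cases hi : i ∈ Sg
    · rw [hS i hi, hS i hi]
    · rw [hR i hi]
  have hβ : ∀ R x, ∫⁻ a, G R x a ∂P2 =
      ∫⁻ b, g (fun i => φ i (x (sig S i), b i)) ∂Measure.pi fun _ => μ := by
    intro R x
    exact (mp_inj μ (sig R) (sig_inj R)).lintegral_comp
      (f := fun b => g (fun i => φ i (x (sig S i), b i)))
      (mg.comp (measurable_pi_lambda _ fun i => (mφ i).comp (by fun_prop)))
  rw [rep S (fun _ _ => rfl), rep (S ∪ Sg) (fun i hi => by simp [sig, hi])]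
  have mh : Measurable fun x => ∫⁻ a, F x a * G S x a ∂P2 :=
    Measurable.lintegral_prod_right (f := fun x a => F x a * G S x a) (mF.mul (mG S))
  have FG1 : ∀ R x a, F x a * G R x a ≤ 1 := fun R x a => mul_le_one' (f1 _) (g1 _)
  refine (jensen_pow P2 _ mh (fun x => lint_le_one _ (FG1 S x)) _).trans ?_
  refine lintegral_mono fun x => ?_
  have h1 : ∫⁻ a, F x a * G S x a ∂P2 ≤ ∫⁻ a, F x a ∂P2 :=
    lintegral_mono fun a => mul_le_of_le_one_right' (g1 _)
  have h2 : ∫⁻ a, F x a * G S x a ∂P2 ≤ ∫⁻ a, G (S ∪ Sg) x a ∂P2 := by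
    rw [hβ, ← hβ S]
    exact lintegral_mono fun a => mul_le_of_le_one_left' (f1 _)
  have h3 := tensor μ (fun k : ι ⊕ ι => τ (k.elim id id)) (fun k => Top (k.elim id id))
    (fun k => hTop _) κ hκ0 hκ1 (fun k => hν _) (2 * B) ?_ C hC (F x) (G (S ∪ Sg) x)
    (mF.comp measurable_prodMk_left) ((mG _).comp measurable_prodMk_left)
    (fun a => f1 _) (fun a => g1 _) ?_ ?_
  · calc (∫⁻ a, F x a * G S x a ∂P2) ^ (2 * C)
        = ((∫⁻ a, F x a * G S x a ∂P2) * (∫⁻ a, F x a * G S x a ∂P2)) ^ C := by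
          rw [pow_mul, sq]
      _ ≤ ((∫⁻ a, F x a ∂P2) * (∫⁻ a, G (S ∪ Sg) x a ∂P2)) ^ C := by gcongr
      _ ≤ _ := h3
      _ ≤ _ := lintegral_mono fun a => pow_le_of_le_one zero_le (FG1 _ x a) hC0
  · intro j
    have : (Finset.univ.filter fun k : ι ⊕ ι => τ (k.elim id id) = j) =
        (Finset.univ.filter fun i => τ i = j).disjSum (Finset.univ.filter fun i => τ i = j) := by
      ext k; cases k <;> simp
    rw [this, Finset.card_disjSum]
    have := hB j
    omega
  · intro j z z' h1 h2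
    exact hf (fun i => x (Sum.inl i)) j _ _ (fun i hi => h1 (Sum.inl i) hi)
      (fun i hi => h2 (Sum.inl i) hi)
  · intro j z z' h1 h2
    refine hg (fun i => x (sig S i)) j _ _ (fun i hi => h1 _ ?_) (fun i hi => ?_)
    · rwa [sig_elim]
    · have := h2 (sig (S ∪ Sg) i) (by rwa [sig_elim])
      rwa [sig_elim] at this

lemma chain {Cl : Type} [Fintype Cl] [DecidableEq Cl] (mf : Measurable f) (mg : Measurable g)
    (cls : ι → Cl) (m : ℕ)
    (h : ∀ (c : Cl) (S : Finset ι),
      pp μ f g S ^ m ≤ pp μ f g (S ∪ Finset.univ.filter fun i => cls i = c)) :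
    ((∫⁻ x, f x ∂Measure.pi fun _ => μ) * ∫⁻ x, g x ∂Measure.pi fun _ => μ) ^
      (m ^ Fintype.card Cl) ≤ ∫⁻ x, f x * g x ∂Measure.pi fun _ => μ := by
  have key : ∀ s : Finset Cl,
      pp μ f g ∅ ^ (m ^ s.card) ≤ pp μ f g (Finset.univ.filter fun i => cls i ∈ s) := by
    intro s
    induction s using Finset.induction_on with
    | empty => simp
    | insert c s hc ih =>
      have e : (Finset.univ.filter fun i => cls i ∈ insert c s) =
          (Finset.univ.filter fun i => cls i ∈ s) ∪ Finset.univ.filter fun i => cls i = c := by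
        ext i; simp [or_comm]
      rw [e, Finset.card_insert_of_notMem hc, pow_succ, pow_mul]
      exact le_trans (pow_le_pow_left' ih m) (h c _)
  have := key Finset.univ
  rw [pp_empty μ f g mf mg] at this
  simp only [Finset.mem_univ, Finset.filter_true, Finset.card_univ] at this
  rwa [pp_univ μ f g mf mg] at this

end

end Pool.Agent.MP_57c4af_pr

end

-- part MP_57c4af_pr.Cell
section

/-! Writing a uniform variable as `(N + W) / K`, and resampling the integer part. -/

open MeasureTheory Set Function ProbabilityTheory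
open scoped ENNReal

namespace Pool.Agent.MP_57c4af_pr

abbrev Ce (k : ℕ) := Fin (k + 1) × unitInterval

noncomputable def nuF (k : ℕ) : Measure (Fin (k + 1)) := uniformOn univ

instance (k : ℕ) : IsProbabilityMeasure (nuF k) := by unfold nuF; infer_instance

lemma nuF_single (k : ℕ) (n : Fin (k + 1)) : nuF k {n} = ((k + 1 : ℕ) : ℝ≥0∞)⁻¹ := by
  simp [nuF, uniformOn_univ]

noncomputable def muC (k : ℕ) : Measure (Ce k) := (nuF k).prod volume

instance (k : ℕ) : IsProbabilityMeasure (muC k) := by unfold muC; infer_instance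

noncomputable def val {k : ℕ} (e : Ce k) : unitInterval :=
  ⟨((e.1 : ℕ) + (e.2 : ℝ)) / (k + 1), by
    have h1 := e.2.2.1
    have h2 := e.2.2.2
    have h3 : ((e.1 : ℕ) : ℝ) ≤ k := by exact_mod_cast Nat.lt_succ_iff.1 e.1.2
    constructor
    · positivity
    · rw [div_le_one (by positivity)]; linarith⟩

lemma val_coe {k : ℕ} (e : Ce k) : (val e : ℝ) = ((e.1 : ℕ) + (e.2 : ℝ)) / (k + 1) := rfl

lemma measurable_val (k : ℕ) : Measurable (val : Ce k → unitInterval) := by
  refine Measurable.subtype_mk ?_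
  have h1 : Measurable fun e : Ce k => ((e.1 : ℕ) : ℝ) :=
    (measurable_of_countable fun n : Fin (k + 1) => ((n : ℕ) : ℝ)).comp measurable_fst
  have h2 : Measurable fun e : Ce k => (e.2 : ℝ) := measurable_subtype_coe.comp measurable_snd
  exact (h1.add h2).div_const _

lemma sum_clamp (x : ℝ) (hx : 0 ≤ x) (n : ℕ) :
    ∑ i ∈ Finset.range n, max 0 (min 1 (x - i)) = min x n := by
  induction n with
  | zero => simp [hx]
  | succ n ih =>
    rw [Finset.sum_range_succ, ih]
    push_cast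
    simp only [max_def, min_def]
    split_ifs <;> linarith

lemma vol_le (y : ℝ) :
    (volume : Measure unitInterval) {w | (w : ℝ) ≤ y} = ENNReal.ofReal (max 0 (min 1 y)) := by
  rw [unitInterval.volume_apply]
  have : Subtype.val '' {w : unitInterval | (w : ℝ) ≤ y} = Icc 0 (min 1 y) := by
    ext x
    simp only [mem_image, mem_ofPred_eq, Subtype.exists, mem_Icc, exists_and_left, exists_prop,
      exists_eq_right_right, le_min_iff]
    tauto
  rw [this, Real.volume_Icc, sub_zero]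
  rcases le_total 0 (min 1 y) with h | h
  · rw [max_eq_right h]
  · rw [max_eq_left h, ENNReal.ofReal_of_nonpos h, ENNReal.ofReal_zero]

lemma mp_val (k : ℕ) : MeasurePreserving (val : Ce k → unitInterval) (muC k) volume := by
  refine ⟨measurable_val k, ?_⟩
  have := Measure.isProbabilityMeasure_map (μ := muC k) (measurable_val k).aemeasurable
  refine Measure.ext_of_Iic _ _ fun t => ?_
  rw [Measure.map_apply (measurable_val k) measurableSet_Iic, unitInterval.volume_Iic, muC,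
    Measure.prod_apply ((measurable_val k) measurableSet_Iic), lintegral_fintype]
  have hk : (0 : ℝ) < k + 1 := by positivity
  have e : ∀ n : Fin (k + 1), Prod.mk n ⁻¹' (val ⁻¹' Iic t) =
      {w : unitInterval | (w : ℝ) ≤ (k + 1) * t - (n : ℕ)} := by
    intro n; ext w
    simp only [mem_preimage, mem_Iic, mem_ofPred_eq]
    rw [← Subtype.coe_le_coe, val_coe, div_le_iff₀ hk]
    constructor <;> intro h <;> linarith
  simp only [e, vol_le, nuF_single]
  rw [← Finset.sum_mul, ← ENNReal.ofReal_sum_of_nonneg (fun _ _ => le_max_left _ _),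
    Fin.sum_univ_eq_sum_range (fun n => max 0 (min 1 ((k + 1) * (t : ℝ) - (n : ℕ)))) (k + 1),
    sum_clamp _ (mul_nonneg hk.le t.2.1), min_eq_left (by push_cast; nlinarith [t.2.2]),
    ENNReal.ofReal_mul hk.le]
  have : ENNReal.ofReal ((k : ℝ) + 1) = ((k + 1 : ℕ) : ℝ≥0∞) := by
    rw [← ENNReal.ofReal_natCast]; push_cast; rfl
  rw [this, mul_right_comm, ENNReal.mul_inv_cancel (by simp) (by simp), one_mul]

/-- resampling inside the class `{N ≥ d}` -/
noncomputable def phi {k : ℕ} (d : ℕ) (p : Ce k × Ce k) : Ce k :=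
  if d ≤ (p.1.1 : ℕ) ∧ d ≤ (p.2.1 : ℕ) then (p.2.1, if d = 0 then p.2.2 else p.1.2) else p.1

def swp {k : ℕ} (d : ℕ) (q : Fin (k + 1) × Fin (k + 1)) : Fin (k + 1) × Fin (k + 1) :=
  if d ≤ (q.1 : ℕ) ∧ d ≤ (q.2 : ℕ) then (q.2, q.1) else q

lemma swp_swp {k : ℕ} (d : ℕ) (q : Fin (k + 1) × Fin (k + 1)) : swp d (swp d q) = q := by
  unfold swp
  by_cases h : d ≤ (q.1 : ℕ) ∧ d ≤ (q.2 : ℕ)
  · simp [h]
  · simp [h]

lemma mp_swp (k d : ℕ) :
    MeasurePreserving (swp d) ((nuF k).prod (nuF k)) ((nuF k).prod (nuF k)) := by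
  refine ⟨measurable_of_countable _, Measure.ext_of_singleton fun q => ?_⟩
  rw [Measure.map_apply (measurable_of_countable _) (measurableSet_singleton _)]
  have : swp d ⁻¹' {q} = {swp d q} := by
    ext r
    simp only [mem_preimage, mem_singleton_iff]
    constructor
    · rintro rfl; rw [swp_swp]
    · rintro rfl; rw [swp_swp]
  have hs : ∀ r : Fin (k + 1) × Fin (k + 1), ((nuF k).prod (nuF k)) {r} =
      ((k + 1 : ℕ) : ℝ≥0∞)⁻¹ * ((k + 1 : ℕ) : ℝ≥0∞)⁻¹ := by
    intro r
    rw [← singleton_prod_singleton, Measure.prod_prod, nuF_single, nuF_single]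
  rw [this, hs, hs]

lemma mp_phi (k d : ℕ) : MeasurePreserving (phi d) ((muC k).prod (muC k)) (muC k) := by
  rcases Nat.eq_zero_or_pos d with rfl | hd
  · have : (phi 0 : Ce k × Ce k → Ce k) = Prod.snd := by
      funext p; simp [phi]
    rw [this]
    exact measurePreserving_snd
  · have h1 : MeasurePreserving (Prod.map id Prod.fst) ((muC k).prod (muC k))
        ((muC k).prod (nuF k)) := (MeasurePreserving.id _).prod measurePreserving_fst
    have h2 : MeasurePreserving Prod.swap ((muC k).prod (nuF k)) ((nuF k).prod (muC k)) :=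
      Measure.measurePreserving_swap
    have h3 := (measurePreserving_prodAssoc (nuF k) (nuF k) (volume : Measure unitInterval)).symm
    have h4 : MeasurePreserving (Prod.map (Prod.snd ∘ swp d) id)
        (((nuF k).prod (nuF k)).prod (volume : Measure unitInterval)) (muC k) :=
      (measurePreserving_snd.comp (mp_swp k d)).prod (MeasurePreserving.id _)
    have h5 := h4.comp (h3.comp (h2.comp h1))
    have : (phi d : Ce k × Ce k → Ce k) = (Prod.map (Prod.snd ∘ swp d) id) ∘
        (MeasurableEquiv.prodAssoc.symm ∘ (Prod.swap ∘ (Prod.map id Prod.fst))) := by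
      funext p
      obtain ⟨⟨n, w⟩, ⟨n', w'⟩⟩ := p
      have e : MeasurableEquiv.prodAssoc.symm (n', (n, w)) = ((n', n), w) := rfl
      simp only [comp_apply, Prod.map_apply, id, Prod.swap_prod_mk, e, phi, swp, hd.ne', if_false]
      by_cases h : d ≤ (n : ℕ) ∧ d ≤ (n' : ℕ)
      · rw [if_pos h, if_pos h.symm]
      · rw [if_neg h, if_neg fun h' => h h'.symm]
    rw [this]
    exact h5

def Tp (k d : ℕ) : Set (Ce k) := {e | (e.1 : ℕ) = min d k}

lemma Tp_eq (k d : ℕ) : Tp k d = {(⟨min d k, by omega⟩ : Fin (k + 1))} ×ˢ univ := by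
  ext e; simp [Tp, Fin.ext_iff]

lemma meas_Tp (k d : ℕ) : MeasurableSet (Tp k d) := by
  rw [Tp_eq]; exact (measurableSet_singleton _).prod .univ

lemma real_Tp (k d : ℕ) : (muC k).real (Tp k d) = ((k : ℝ) + 1)⁻¹ := by
  rw [Tp_eq, Measure.real, muC, Measure.prod_prod, nuF_single, measure_univ, mul_one,
    ENNReal.toReal_inv, ENNReal.toReal_natCast]
  push_cast; rfl

/-- what a top value does at one site -/
lemma phi_top {k : ℕ} (d : ℕ) (x a a' : Ce k) (h : a' ∈ Tp k d) :
    ((phi d (x, a')).1 : ℕ) ≤ d ∧ (phi d (x, a') = phi d (x, a) ∨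
      (((phi d (x, a')).1 : ℕ) = d ∧ ((val (phi d (x, a')) : ℝ) ≤ val (phi d (x, a)) ∨ d = 0))) := by
  have hx := x.1.2
  have h' : (a'.1 : ℕ) = min d k := h
  by_cases h1 : d ≤ (x.1 : ℕ)
  · have h2 : (a'.1 : ℕ) = d := by omega
    have e : phi d (x, a') = (a'.1, if d = 0 then a'.2 else x.2) := by
      simp [phi, h1, h2]
    rw [e]
    refine ⟨h2.le, Or.inr ⟨h2, ?_⟩⟩
    by_cases h0 : d = 0
    · exact Or.inr h0
    · left
      rw [val_coe, val_coe]
      apply div_le_div_of_nonneg_right _ (by positivity)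
      simp only [h0, if_false, phi]
      split_ifs with h3
      · have : ((a'.1 : ℕ) : ℝ) ≤ (a.1 : ℕ) := by exact_mod_cast h2 ▸ h3.2
        simpa using this
      · have : ((a'.1 : ℕ) : ℝ) ≤ (x.1 : ℕ) := by exact_mod_cast h2 ▸ h1
        simpa using this
  · have e : ∀ b : Ce k, phi d (x, b) = x := fun b => by simp [phi, h1]
    rw [e, e]
    exact ⟨by omega, Or.inl rfl⟩

/-- clamping keeps open edges open -/
lemma clamp_edge {k : ℕ} {ε : ℝ} (hε : 2 < ε * (k + 1)) {Da Db : ℕ} (hD : Db ≤ Da + 1)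
    {xa xb ya yb : Ce k} (hb1 : (yb.1 : ℕ) ≤ Db)
    (ha : ya = xa ∨ (ya.1 : ℕ) = Da)
    (hb : yb = xb ∨ (val yb : ℝ) ≤ val xb ∨ Db = 0)
    (h : (val xb : ℝ) < val xa + ε) : (val yb : ℝ) < val ya + ε := by
  have hk : (0 : ℝ) < k + 1 := by positivity
  have key : ∀ n : ℕ, n ≤ (ya.1 : ℕ) → (yb.1 : ℕ) ≤ n + 1 → (val yb : ℝ) < val ya + ε := by
    intro n h1 h2
    have h3 : (n : ℝ) ≤ (ya.1 : ℕ) := by exact_mod_cast h1
    have h4 : ((yb.1 : ℕ) : ℝ) ≤ n + 1 := by exact_mod_cast h2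
    rw [val_coe, val_coe, div_add' _ _ _ hk.ne', div_lt_div_iff_of_pos_right hk]
    linarith [ya.2.2.1, yb.2.2.2]
  rcases ha with rfl | ha
  · rcases hb with rfl | hb | hb
    · exact h
    · linarith
    · exact key 0 (Nat.zero_le _) (by omega)
  · exact key Da ha.ge (by omega)

end Pool.Agent.MP_57c4af_pr

end
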