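import Pool.Agent.MP_57c4af_pr.Mg.Cell
import Pool.Agent.MP_57c4af_pr.Defs

-- part MP_57c4af_pr.QFKG
section

/-! Quasi-positive association of edge-increasing events. -/

open MeasureTheory Set Function
open scoped ENNReal

namespace Pool.Agent.MP_57c4af_pr

abbrev V := ℤ × ℤ
abbrev Cf := V → unitInterval

def Adj (a b : V) : Prop :=
  (a.1 = b.1 ∧ (b.2 = a.2 + 1 ∨ a.2 = b.2 + 1)) ∨ (a.2 = b.2 ∧ (b.1 = a.1 + 1 ∨ a.1 = b.1 + 1))

def Opn (ε : ℝ) (U : Cf) (a b : V) : Prop := Adj a b ∧ (U b : ℝ) < U a + ε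

def Inc (ε : ℝ) (Λ : Finset V) (A : Set Cf) : Prop :=
  ∀ U U' : Cf, (∀ a ∈ Λ, ∀ b ∈ Λ, Opn ε U a b → Opn ε U' a b) → U ∈ A → U' ∈ A

instance : IsProbabilityMeasure law := by unfold law; infer_instance

lemma meas_opn (ε : ℝ) (a b : V) : MeasurableSet {U : Cf | Opn ε U a b} := by
  have h : MeasurableSet {U : Cf | (U b : ℝ) < U a + ε} :=
    measurableSet_lt (by fun_prop) (by fun_prop)
  by_cases hab : Adj a b
  · simpa [Opn, hab] using h
  · simp [Opn, hab]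

lemma Inc.meas {ε : ℝ} {Λ : Finset V} {A : Set Cf} (h : Inc ε Λ A) : MeasurableSet A := by
  classical
  have : A = ⋃ s : Finset (V × V),
      ⋃ (_ : ∃ U0 ∈ A, ∀ a ∈ Λ, ∀ b ∈ Λ, Opn ε U0 a b → (a, b) ∈ s),
        ⋂ e ∈ s, {U : Cf | Opn ε U e.1 e.2} := by
    ext U
    simp only [mem_iUnion, mem_iInter, mem_ofPred_eq, exists_prop]
    constructor
    · intro hU
      refine ⟨(Λ ×ˢ Λ).filter fun e => Opn ε U e.1 e.2, ⟨U, hU, fun a ha b hb hab => ?_⟩,
        fun e he => (Finset.mem_filter.1 he).2⟩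
      simp [ha, hb, hab]
    · rintro ⟨s, ⟨U0, hU0, h1⟩, h2⟩
      exact h U0 U (fun a ha b hb hab => h2 _ (h1 a ha b hb hab)) hU0
  rw [this]
  exact MeasurableSet.iUnion fun s => MeasurableSet.iUnion fun _ =>
    Finset.measurableSet_biInter _ fun e _ => meas_opn ε _ _

lemma Inc.mono {ε : ℝ} {Λ Λ' : Finset V} {A : Set Cf} (h : Inc ε Λ A) (hΛ : Λ ⊆ Λ') :
    Inc ε Λ' A := fun U U' h1 => h U U' fun a ha b hb => h1 a (hΛ ha) b (hΛ hb)

lemma Inc.inter {ε : ℝ} {Λ : Finset V} {A B : Set Cf} (hA : Inc ε Λ A) (hB : Inc ε Λ B) :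
    Inc ε Λ (A ∩ B) := fun U U' h1 h2 => ⟨hA U U' h1 h2.1, hB U U' h1 h2.2⟩

/-- extension of a finite configuration -/
noncomputable def ext0 (Λ : Finset V) (u : Λ → unitInterval) : Cf :=
  fun v => if h : v ∈ Λ then u ⟨v, h⟩ else 0

lemma measurable_ext0 (Λ : Finset V) : Measurable (ext0 Λ) := by
  refine measurable_pi_lambda _ fun v => ?_
  by_cases h : v ∈ Λ
  · simp only [ext0, h, dite_true]; fun_prop
  · simp only [ext0, h, dite_false]; fun_prop

noncomputable def extC (k : ℕ) (Λ : Finset V) (e : Λ → Ce k) : Cf := ext0 Λ fun i => val (e i)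

lemma measurable_extC (k : ℕ) (Λ : Finset V) : Measurable (extC k Λ) :=
  (measurable_ext0 Λ).comp (measurable_pi_lambda _ fun i =>
    (measurable_val k).comp (measurable_pi_apply i))

lemma law_eq {ε : ℝ} {Λ : Finset V} {A : Set Cf} (h : Inc ε Λ A) (k : ℕ) :
    law A = (Measure.pi fun _ : Λ => muC k) (extC k Λ ⁻¹' A) := by
  have h1 : MeasurePreserving Λ.restrict law (Measure.pi fun _ : Λ => volume) :=
    ⟨Finset.measurable_restrict Λ, Measure.infinitePi_map_restrict _⟩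
  have h2 := measurePreserving_pi (fun _ : Λ => muC k) (fun _ => volume) (fun _ => mp_val k)
  have m := (measurable_ext0 Λ) h.meas
  have e1 : A = Λ.restrict ⁻¹' (ext0 Λ ⁻¹' A) := by
    ext U
    have : ∀ a ∈ Λ, ∀ b ∈ Λ, Opn ε U a b ↔ Opn ε (ext0 Λ (Λ.restrict U)) a b := by
      intro a ha b hb
      simp [Opn, ext0, ha, hb]
    exact ⟨h _ _ fun a ha b hb => (this a ha b hb).1, h _ _ fun a ha b hb => (this a ha b hb).2⟩
  rw [e1, h1.measure_preimage m.nullMeasurableSet, ← e1,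
    ← h2.measure_preimage m.nullMeasurableSet]
  rfl

/-- signed offset of `x` from the nearest integer congruent to `c` -/
def off (k : ℕ) (c : ZMod (2 * k + 3)) (x : ℤ) : ℤ :=
  (x - (c.val : ℤ) + (k + 1)) % (2 * k + 3 : ℕ) - (k + 1)

lemma off_bd (k : ℕ) (c : ZMod (2 * k + 3)) (x : ℤ) :
    -(k + 1 : ℤ) ≤ off k c x ∧ off k c x ≤ k + 1 := by
  have h1 := Int.emod_nonneg (x - (c.val : ℤ) + (k + 1))
    (show ((2 * k + 3 : ℕ) : ℤ) ≠ 0 by omega)
  have h2 := Int.emod_lt_of_pos (x - (c.val : ℤ) + (k + 1))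
    (show (0 : ℤ) < ((2 * k + 3 : ℕ) : ℤ) by omega)
  unfold off
  omega

lemma off_dvd (k : ℕ) (c : ZMod (2 * k + 3)) (x : ℤ) :
    ((2 * k + 3 : ℕ) : ℤ) ∣ x - off k c x - c.val := by
  have := Int.dvd_self_sub_emod (x := x - (c.val : ℤ) + (k + 1)) (m := ((2 * k + 3 : ℕ) : ℤ))
  have e : x - off k c x - c.val = x - (c.val : ℤ) + (k + 1) -
      (x - (c.val : ℤ) + (k + 1)) % (2 * k + 3 : ℕ) := by unfold off; ring
  rwa [e]

lemma off_zero (k : ℕ) (x : ℤ) : off k (x : ZMod (2 * k + 3)) x = 0 := by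
  have h1 := off_dvd k (x : ZMod (2 * k + 3)) x
  have h2 : ((2 * k + 3 : ℕ) : ℤ) ∣ x - ((x : ZMod (2 * k + 3)).val : ℤ) := by
    rw [← ZMod.intCast_eq_intCast_iff_dvd_sub]; simp
  have h3 := dvd_sub h2 h1
  have h4 := off_bd k (x : ZMod (2 * k + 3)) x
  have e : x - ((x : ZMod (2 * k + 3)).val : ℤ) - (x - off k (x : ZMod (2 * k + 3)) x -
    ((x : ZMod (2 * k + 3)).val : ℤ)) = off k (x : ZMod (2 * k + 3)) x := by ring
  rw [e] at h3
  exact Int.eq_zero_of_abs_lt_dvd h3 (by rw [abs_lt]; omega)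

lemma off_far (k : ℕ) (c : ZMod (2 * k + 3)) (x y : ℤ) (h : x - off k c x ≠ y - off k c y) :
    k ≤ (x - (y - off k c y)).natAbs := by
  have h3 := dvd_sub (off_dvd k c x) (off_dvd k c y)
  have e : x - off k c x - c.val - (y - off k c y - c.val) =
    x - off k c x - (y - off k c y) := by ring
  rw [e] at h3
  have h4 := off_bd k c x
  by_contra h5
  exact h (sub_eq_zero.1 (Int.eq_zero_of_abs_lt_dvd h3 (by rw [abs_lt]; omega)))

def cen (k : ℕ) (c : ZMod (2 * k + 3) × ZMod (2 * k + 3)) (v : V) : V :=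
  (v.1 - off k c.1 v.1, v.2 - off k c.2 v.2)

def dd (k : ℕ) (c : ZMod (2 * k + 3) × ZMod (2 * k + 3)) (v : V) : ℕ :=
  (off k c.1 v.1).natAbs + (off k c.2 v.2).natAbs

lemma tile_card (k : ℕ) (c : ZMod (2 * k + 3) × ZMod (2 * k + 3)) (Λ : Finset V) (j : V) :
    (Finset.univ.filter fun i : Λ => cen k c i = j).card ≤ (2 * k + 3) * (2 * k + 3) := by
  have h := Finset.card_le_card_of_injOn (s := Finset.univ.filter fun i : Λ => cen k c i = j)
    (t := Finset.Icc (j.1 - (k + 1)) (j.1 + (k + 1)) ×ˢ Finset.Icc (j.2 - (k + 1)) (j.2 + (k + 1)))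
    (fun i => (i : V)) ?_ (fun a _ b _ h => Subtype.ext h)
  · refine h.trans (le_of_eq ?_)
    rw [Finset.card_product, Int.card_Icc, Int.card_Icc]
    congr 1 <;> omega
  · intro i hi
    simp only [Finset.coe_filter, Finset.mem_univ, true_and, mem_ofPred_eq] at hi
    have h1 := off_bd k c.1 (i : V).1
    have h2 := off_bd k c.2 (i : V).2
    rw [← hi]
    simp only [Finset.coe_product, Finset.coe_Icc, mem_prod, mem_Icc, cen]
    omega

lemma top_mono {ε : ℝ} {k : ℕ} (hε : 2 < ε * (k + 1)) {Λ : Finset V} {A : Set Cf}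
    (hA : Inc ε Λ A) (c : ZMod (2 * k + 3) × ZMod (2 * k + 3)) (x : Λ → Ce k) (j : V)
    (a a' : Λ → Ce k) (h1 : ∀ i : Λ, cen k c i ≠ j → a' i = a i)
    (h2 : ∀ i : Λ, cen k c i = j → a' i ∈ Tp k (dd k c i))
    (h : extC k Λ (fun i => phi (dd k c i) (x i, a i)) ∈ A) :
    extC k Λ (fun i => phi (dd k c i) (x i, a' i)) ∈ A := by
  by_cases hj : ∃ i0 : Λ, cen k c i0 = j
  swap
  · have : a' = a := funext fun i => h1 i fun hi => hj ⟨i, hi⟩
    rwa [this]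
  obtain ⟨i0, rfl⟩ := hj
  let D : V → ℕ := fun v => (v.1 - (cen k c i0).1).natAbs + (v.2 - (cen k c i0).2).natAbs
  have key : ∀ i : Λ, ((phi (dd k c i) (x i, a' i)).1 : ℕ) ≤ D i ∧
      (phi (dd k c i) (x i, a' i) = phi (dd k c i) (x i, a i) ∨
      (((phi (dd k c i) (x i, a' i)).1 : ℕ) = D i ∧
        ((val (phi (dd k c i) (x i, a' i)) : ℝ) ≤ val (phi (dd k c i) (x i, a i)) ∨ D i = 0))) := by
    intro i
    by_cases hi : cen k c i = cen k c i0
    · have e : D i = dd k c i := by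
        simp only [D]
        rw [← hi]
        simp only [cen, dd]
        congr 2 <;> ring
      rw [e]
      exact phi_top _ _ _ _ (h2 i hi)
    · rw [h1 i hi]
      refine ⟨?_, Or.inl rfl⟩
      have h3 := (phi (dd k c i) (x i, a i)).1.2
      have h4 : k ≤ D i := by
        by_cases h5 : (cen k c i).1 = (cen k c i0).1
        · have h6 : (cen k c i).2 ≠ (cen k c i0).2 := fun h6 => hi (Prod.ext h5 h6)
          exact (off_far k c.2 _ _ h6).trans (Nat.le_add_left _ _)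
        · exact (off_far k c.1 _ _ h5).trans (Nat.le_add_right _ _)
      omega
  refine hA _ _ (fun u hu v hv huv => ⟨huv.1, ?_⟩) h
  have h3 := huv.2
  simp only [extC, ext0, hu, hv, dite_true] at h3 ⊢
  have hD : D v ≤ D u + 1 := by
    have := huv.1
    simp only [D, Adj] at this ⊢
    omega
  refine clamp_edge hε hD (key ⟨v, hv⟩).1 ((key ⟨u, hu⟩).2.imp id And.left)
    ((key ⟨v, hv⟩).2.imp id And.right) h3

theorem qfkg {ε : ℝ} (hε : 0 < ε) : ∃ C : ℕ, ∀ (Λ : Finset V) (A B : Set Cf),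
    Inc ε Λ A → Inc ε Λ B → (law A * law B) ^ C ≤ law (A ∩ B) := by
  obtain ⟨k, hk⟩ := exists_nat_gt (2 / ε)
  have hk2 : 2 < ε * (k + 1) := by
    rw [div_lt_iff₀ hε] at hk; nlinarith
  set κ : ℝ := ((k : ℝ) + 1)⁻¹ with hκ
  have hκ0 : 0 < κ := by positivity
  have hκ1 : κ ≤ 1 := inv_le_one_of_one_le₀ (by linarith [Nat.cast_nonneg (α := ℝ) k])
  set B0 := (2 * k + 3) * (2 * k + 3) with hB0
  have hp : 0 < κ ^ (2 * B0) := by positivity
  obtain ⟨C, hC⟩ := exists_nat_gt (1 + 1 / (2 * κ ^ (2 * B0)))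
  have hC1 : 1 ≤ 2 * κ ^ (2 * B0) * (C - 1) := by
    have : 1 / (2 * κ ^ (2 * B0)) ≤ C - 1 := by linarith
    rwa [div_le_iff₀ (by positivity), mul_comm] at this
  have hC0 : C ≠ 0 := by
    rintro rfl
    have : 0 < 1 / (2 * κ ^ (2 * B0)) := by positivity
    simp only [Nat.cast_zero] at hC
    linarith
  refine ⟨(2 * C) ^ Fintype.card (ZMod (2 * k + 3) × ZMod (2 * k + 3)), fun Λ A B hA hB => ?_⟩
  have mA := measurable_extC k Λ hA.meas
  have mB := measurable_extC k Λ hB.meas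
  have ind1 : ∀ (s : Set (Λ → Ce k)) x, s.indicator (1 : (Λ → Ce k) → ℝ≥0∞) x ≤ 1 :=
    fun s x => indicator_le_self' (fun _ _ => zero_le) x
  have indm : ∀ (s : Set (Λ → Ce k)) x y, (x ∈ s → y ∈ s) →
      s.indicator (1 : (Λ → Ce k) → ℝ≥0∞) x ≤ s.indicator 1 y := by
    intro s x y h
    by_cases hx : x ∈ s
    · simp [hx, h hx]
    · simp [hx]
  have h := chain (muC k) ((extC k Λ ⁻¹' A).indicator 1) ((extC k Λ ⁻¹' B).indicator 1)
    (measurable_one.indicator mA) (measurable_one.indicator mB)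
    (fun i : Λ => ((((i : V).1 : ZMod (2 * k + 3)), ((i : V).2 : ZMod (2 * k + 3))) :
      ZMod (2 * k + 3) × ZMod (2 * k + 3))) (2 * C) ?_
  · rw [lintegral_indicator_one mA, lintegral_indicator_one mB] at h
    have e : ∀ x, (extC k Λ ⁻¹' A).indicator (1 : (Λ → Ce k) → ℝ≥0∞) x *
        (extC k Λ ⁻¹' B).indicator 1 x = (extC k Λ ⁻¹' (A ∩ B)).indicator 1 x := by
      intro x
      rw [preimage_inter, inter_indicator_one]; rfl
    simp only [e] at h
    rw [lintegral_indicator_one (measurable_extC k Λ (hA.inter hB).meas)] at h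
    rwa [law_eq hA k, law_eq hB k, law_eq (hA.inter hB) k]
  · intro c S
    refine stage (muC k) _ _ (measurable_one.indicator mA) (measurable_one.indicator mB)
      (ind1 _) (ind1 _) S _ (fun i : Λ => phi (dd k c i)) (fun i => mp_phi k _) ?_
      (fun i : Λ => cen k c i) (fun i : Λ => Tp k (dd k c i)) (fun i => meas_Tp _ _) κ hκ0 hκ1
      (fun i => (real_Tp k _).ge) B0 (tile_card k c Λ) C hC0 hC1 ?_ ?_
    · intro i hi e e'
      rw [Finset.mem_filter] at hi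
      have : dd k c i = 0 := by
        rw [← hi.2]; simp [dd, off_zero]
      simp [this, phi]
    · intro x j a a' h1 h2
      exact indm _ _ _ (top_mono hk2 hA c x j a a' h1 h2)
    · intro x j a a' h1 h2
      exact indm _ _ _ (top_mono hk2 hB c x j a a' h1 h2)

end Pool.Agent.MP_57c4af_pr

end

-- part MP_57c4af_pr.Planar
section

/-! Planar crossing and gluing lemmas for lattice walks. -/

open Set Relation

namespace Pool.Agent.MP_57c4af_pr

/-- undirected connection inside `P` -/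
def UC (P : Set V) : V → V → Prop := ReflTransGen fun u v => u ∈ P ∧ v ∈ P ∧ Adj u v

/-- directed connection inside `D` -/
def DC (R : V → V → Prop) (D : Set V) : V → V → Prop :=
  ReflTransGen fun u v => u ∈ D ∧ v ∈ D ∧ R u v

lemma Adj.symm {a b : V} (h : Adj a b) : Adj b a := by
  unfold Adj at *; omega

lemma UC.symm {P : Set V} {a b : V} (h : UC P a b) : UC P b a := by
  induction h with
  | refl => exact ReflTransGen.refl
  | tail _ h2 ih => exact ReflTransGen.head ⟨h2.2.1, h2.1, h2.2.2.symm⟩ ih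

lemma UC.trans {P : Set V} {a b c : V} (h : UC P a b) (h' : UC P b c) : UC P a c :=
  ReflTransGen.trans h h'

lemma UC.mem {P : Set V} {a b : V} (h : UC P a b) (ha : a ∈ P) : b ∈ P := by
  induction h with
  | refl => exact ha
  | tail _ h2 _ => exact h2.2.1

lemma UC.mono {P Q : Set V} {a b : V} (h : UC P a b) (hPQ : P ⊆ Q) : UC Q a b := by
  induction h with
  | refl => exact ReflTransGen.refl
  | tail _ h2 ih => exact ReflTransGen.tail ih ⟨hPQ h2.1, hPQ h2.2.1, h2.2.2⟩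

lemma UC.comp {P : Set V} {a b : V} (h : UC P a b) : UC {z | z ∈ P ∧ UC P a z} a b := by
  induction h with
  | refl => exact ReflTransGen.refl
  | tail h1 h2 ih => exact ReflTransGen.tail ih ⟨⟨h2.1, h1⟩, ⟨h2.2.1, h1.tail h2⟩, h2.2.2⟩

lemma DC.trans {R : V → V → Prop} {D : Set V} {a b c : V} (h : DC R D a b) (h' : DC R D b c) :
    DC R D a c := ReflTransGen.trans h h'

lemma DC.mem {R : V → V → Prop} {D : Set V} {a b : V} (h : DC R D a b) (ha : a ∈ D) : b ∈ D := by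
  induction h with
  | refl => exact ha
  | tail _ h2 _ => exact h2.2.1

lemma DC.mem' {R : V → V → Prop} {D : Set V} {a b : V} (h : DC R D a b) (hb : b ∈ D) : a ∈ D := by
  induction h using ReflTransGen.head_induction_on with
  | refl => exact hb
  | head h2 _ _ => exact h2.1

lemma DC.mono {R : V → V → Prop} {D D' : Set V} {a b : V} (h : DC R D a b) (hD : D ⊆ D') :
    DC R D' a b := by
  induction h with
  | refl => exact ReflTransGen.refl
  | tail _ h2 ih => exact ReflTransGen.tail ih ⟨hD h2.1, hD h2.2.1, h2.2.2⟩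

lemma DC.flip {R : V → V → Prop} {D : Set V} {a b : V} (h : DC R D a b) :
    DC (fun u v => R v u) D b a := by
  induction h with
  | refl => exact ReflTransGen.refl
  | tail _ h2 ih => exact ReflTransGen.head ⟨h2.2.1, h2.1, h2.2.2⟩ ih

lemma DC.uc {R : V → V → Prop} (hR : ∀ u v, R u v → Adj u v) {D S : Set V} {a b : V}
    (h : DC R D a b) (hS : ∀ z ∈ D, DC R D a z → DC R D z b → z ∈ S) : UC S a b := by
  have key : ∀ c, DC R D a c → DC R D c b → UC S a c := by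
    intro c h1
    induction h1 with
    | refl => exact fun _ => ReflTransGen.refl
    | @tail u v h1 h2 ih =>
      intro h3
      have h4 : DC R D u b := ReflTransGen.head h2 h3
      exact ReflTransGen.tail (ih h4)
        ⟨hS _ h2.1 h1 h4, hS _ h2.2.1 (h1.tail h2) h3, hR _ _ h2.2.2⟩
  exact key b h ReflTransGen.refl

lemma DC.last {R : V → V → Prop} (hR : ∀ u v, R u v → Adj u v) {D : Set V} {a b : V} {L : ℤ}
    (h : DC R D a b) (ha : a ∈ D) (h1 : a.1 ≤ L) (h2 : L ≤ b.1) :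
    ∃ c, (L, c) ∈ D ∧ DC R D a (L, c) ∧ DC R (D ∩ {z | L ≤ z.1}) (L, c) b := by
  induction h with
  | refl =>
    obtain ⟨x, y⟩ := a
    obtain rfl : x = L := le_antisymm h1 h2
    exact ⟨y, ha, ReflTransGen.refl, ReflTransGen.refl⟩
  | @tail u v h3 h4 ih =>
    by_cases h5 : v.1 = L
    · obtain ⟨x, y⟩ := v
      obtain rfl : x = L := h5
      exact ⟨y, h4.2.1, h3.tail h4, ReflTransGen.refl⟩
    · have h6 : L ≤ u.1 := by
        have := hR _ _ h4.2.2
        unfold Adj at this; omega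
      obtain ⟨c, c1, c2, c3⟩ := ih h6
      exact ⟨c, c1, c2, c3.tail ⟨⟨h4.1, h6⟩, ⟨h4.2.1, h2⟩, h4.2.2⟩⟩

lemma DC.first {R : V → V → Prop} (hR : ∀ u v, R u v → Adj u v) {D : Set V} {a b : V} {L : ℤ}
    (h : DC R D a b) (hb : b ∈ D) (h1 : a.1 ≤ L) (h2 : L ≤ b.1) :
    ∃ c, (L, c) ∈ D ∧ DC R (D ∩ {z | z.1 ≤ L}) a (L, c) ∧ DC R D (L, c) b := by
  induction h using ReflTransGen.head_induction_on with
  | refl =>
    obtain ⟨x, y⟩ := b
    obtain rfl : x = L := le_antisymm h1 h2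
    exact ⟨y, hb, ReflTransGen.refl, ReflTransGen.refl⟩
  | @head u v h4 h3 ih =>
    by_cases h5 : u.1 = L
    · obtain ⟨x, y⟩ := u
      obtain rfl : x = L := h5
      exact ⟨y, h4.1, ReflTransGen.refl, ReflTransGen.head h4 h3⟩
    · have h6 : v.1 ≤ L := by
        have := hR _ _ h4.2.2
        unfold Adj at this; omega
      obtain ⟨c, c1, c2, c3⟩ := ih h6
      exact ⟨c, c1, ReflTransGen.head ⟨⟨h4.1, h1⟩, ⟨h4.2.1, h6⟩, h4.2.2⟩ c2, c3⟩

lemma exists_wind {P : Set V} {L R : ℤ} (hP : ∀ z ∈ P, L ≤ z.1 ∧ z.1 ≤ R) {p q : V}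
    (h : UC P p q) : ∃ σ : ℤ → ℤ → ℤ,
      (∀ x y, (x + 1, y) ∉ P → σ x y = σ (x + 1) y) ∧
      (∀ x y, (x, y + 1) ∉ P → σ x y - σ x (y + 1) =
        (if q.2 = y + 1 ∧ x < q.1 then 1 else 0) - (if p.2 = y + 1 ∧ x < p.1 then 1 else 0)) ∧
      (∀ x y, R ≤ x → σ x y = 0) ∧
      (∀ x y, x < L → σ x y = (if p.2 ≤ y then 1 else 0) - (if q.2 ≤ y then 1 else 0)) := by
  induction h with
  | refl => exact ⟨fun _ _ => 0, by simp, by simp, by simp, by simp⟩
  | @tail u v _ h2 ih =>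
    obtain ⟨σ, s1, s2, s3, s4⟩ := ih
    obtain ⟨hu, hv, huv⟩ := h2
    have bu := hP u hu
    have bv := hP v hv
    have ne : ∀ x y, (x, y) ∉ P → ¬ (u.1 = x ∧ u.2 = y) ∧ ¬ (v.1 = x ∧ v.2 = y) := by
      intro x y h
      constructor
      · rintro ⟨rfl, rfl⟩; exact h hu
      · rintro ⟨rfl, rfl⟩; exact h hv
    unfold Adj at huv
    refine ⟨fun x y => σ x y + (if x < u.1 ∧ u.2 = y ∧ v.2 = y + 1 then 1 else 0) -
      (if x < u.1 ∧ v.2 = y ∧ u.2 = y + 1 then 1 else 0), ?_, ?_, ?_, ?_⟩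
    · intro x y h
      have := s1 x y h
      have := ne _ _ h
      beta_reduce
      split_ifs <;> omega
    · intro x y h
      have h3 := s2 x y h
      have := ne _ _ h
      beta_reduce
      generalize (if p.2 = y + 1 ∧ x < p.1 then (1 : ℤ) else 0) = t at h3 ⊢
      split_ifs at h3 ⊢ <;> omega
    · intro x y h
      have := s3 x y h
      beta_reduce
      split_ifs <;> omega
    · intro x y h
      have h3 := s4 x y h
      beta_reduce
      generalize (if p.2 ≤ y then (1 : ℤ) else 0) = t at h3 ⊢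
      split_ifs at h3 ⊢ <;> omega

/-- two walks crossing a vertical strip with interlaced ends meet -/
lemma cross_X {P Q : Set V} {L R a b c d : ℤ} (hP : ∀ z ∈ P, L ≤ z.1 ∧ z.1 ≤ R)
    (hQ : ∀ z ∈ Q, L ≤ z.1 ∧ z.1 ≤ R) (h1 : UC P (L, a) (R, b)) (m1 : (L, a) ∈ P)
    (h2 : UC Q (L, c) (R, d)) (m2 : (L, c) ∈ Q) (hac : a ≤ c) (hdb : d ≤ b) :
    ∃ z, z ∈ P ∧ z ∈ Q := by
  by_contra hn
  push Not at hn
  have hn' : ∀ z ∈ Q, z ∉ P := fun z h h' => hn z h' h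
  obtain ⟨σ, s1, s2, s3, s4⟩ := exists_wind hP h1
  have mb := h1.mem m1
  have key : ∀ z, UC Q (L, c) z → σ z.1 z.2 + (if b ≤ z.2 then 1 else 0) = 1 := by
    intro z hz
    induction hz with
    | refl =>
      have e1 := s1 (L - 1) c (by simpa using hn' _ m2)
      have e2 := s4 (L - 1) c (by omega)
      simp only [sub_add_cancel] at e1
      simp only at e2 ⊢
      split_ifs at e2 ⊢ <;> omega
    | @tail u v _ h4 ih =>
      obtain ⟨hu, hv, huv⟩ := h4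
      obtain ⟨x, y⟩ := u
      obtain ⟨x', y'⟩ := v
      have bu := hQ _ hu
      have bv := hQ _ hv
      have nu : ¬ (x = R ∧ y = b) := by rintro ⟨rfl, rfl⟩; exact hn' _ hu mb
      have nv : ¬ (x' = R ∧ y' = b) := by rintro ⟨rfl, rfl⟩; exact hn' _ hv mb
      simp only [Adj] at huv bu bv ih ⊢
      rcases huv with ⟨rfl, rfl | rfl⟩ | ⟨rfl, rfl | rfl⟩
      · have := s2 x y (hn' _ hv)
        simp only at this
        split_ifs at this ih ⊢ <;> omega
      · have := s2 x y' (hn' _ hu)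
        simp only at this
        split_ifs at this ih ⊢ <;> omega
      · rw [← s1 x y (hn' _ hv)]; exact ih
      · rw [s1 x' y (hn' _ hu)]; exact ih
  have e := key _ h2
  have e3 := s3 R d le_rfl
  simp only at e
  have : d = b := by split_ifs at e <;> omega
  subst this
  exact hn' _ (h2.mem m2) mb

lemma uc_line {P : Set V} {x x' y : ℤ} (h : x ≤ x') (hP : ∀ t, x ≤ t → t ≤ x' → (t, y) ∈ P) :
    UC P (x, y) (x', y) := by
  induction x', h using Int.leInduction with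
  | base => exact ReflTransGen.refl
  | succ n hn ih =>
    refine ReflTransGen.tail (ih fun t h1 h2 => hP t h1 (by omega))
      ⟨hP _ hn (by omega), hP _ (by omega) le_rfl, ?_⟩
    simp [Adj]

/-- the rectangle `[L,R] × [B,T]` -/
def Rc (L R B T : ℤ) : Set V := {z | L ≤ z.1 ∧ z.1 ≤ R ∧ B ≤ z.2 ∧ z.2 ≤ T}

lemma mem_Rc {L R B T : ℤ} {z : V} :
    z ∈ Rc L R B T ↔ L ≤ z.1 ∧ z.1 ≤ R ∧ B ≤ z.2 ∧ z.2 ≤ T := Iff.rfl

/-- a horizontal and a vertical crossing of a rectangle meet -/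
lemma cross_HV {P Q : Set V} {L R B T c d x0 x1 : ℤ} (hP : P ⊆ Rc L R B T)
    (hQ : Q ⊆ Rc L R B T) (h1 : UC P (L, c) (R, d)) (m1 : (L, c) ∈ P)
    (h2 : UC Q (x0, B) (x1, T)) (m2 : (x0, B) ∈ Q) : ∃ z, z ∈ P ∧ z ∈ Q := by
  let Q' : Set V := Q ∪ {z | L ≤ z.1 ∧ z.1 ≤ R ∧ (z.2 = B - 1 ∨ z.2 = T + 1)}
  have b0 := mem_Rc.1 (hQ m2)
  have m3 := h2.mem m2
  have b1 := mem_Rc.1 (hQ m3)
  have b2 := mem_Rc.1 (hP m1)
  have b3 := mem_Rc.1 (hP (h1.mem m1))
  simp only at b0 b1 b2 b3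
  have w1 : UC Q' (L, B - 1) (x0, B - 1) :=
    uc_line b0.1 fun t h1 h2 => Or.inr ⟨h1, by simp only; omega, Or.inl rfl⟩
  have w2 : UC Q' (x0, B - 1) (x0, B) :=
    ReflTransGen.single ⟨Or.inr ⟨b0.1, b0.2.1, Or.inl rfl⟩, Or.inl m2, by simp [Adj]⟩
  have w3 : UC Q' (x1, T) (x1, T + 1) :=
    ReflTransGen.single ⟨Or.inl m3, Or.inr ⟨b1.1, b1.2.1, Or.inr rfl⟩, by simp [Adj]⟩
  have w4 : UC Q' (x1, T + 1) (R, T + 1) :=
    uc_line b1.2.1 fun t h1 h2 => Or.inr ⟨by simp only; omega, h2, Or.inr rfl⟩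
  have k1 : ∀ z ∈ Q', L ≤ z.1 ∧ z.1 ≤ R := by
    rintro z (h | h)
    · have := mem_Rc.1 (hQ h); omega
    · exact ⟨h.1, h.2.1⟩
  have k2 : ∀ z ∈ P, L ≤ z.1 ∧ z.1 ≤ R := by
    intro z h
    have := mem_Rc.1 (hP h); omega
  obtain ⟨z, z1, z2⟩ := cross_X k1 k2
    (w1.trans (w2.trans ((h2.mono subset_union_left).trans (w3.trans w4))))
    (Or.inr ⟨le_rfl, by simp only; omega, Or.inl rfl⟩) h1 m1 (by omega) (by omega)
  refine ⟨z, z2, z1.resolve_right fun h => ?_⟩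
  have := mem_Rc.1 (hP z2)
  have := h.2.2
  omega

section
variable {R : V → V → Prop} (hR : ∀ u v, R u v → Adj u v) {S O : Set V}
  (hO : ∀ u v, u ∈ O → u ∈ S → v ∈ S → R u v → v ∈ O)
include hR hO

omit hR in
lemma dc_closed {a b : V} (h : DC R S a b) (ha : a ∈ O) : b ∈ O := by
  induction h with
  | refl => exact ha
  | tail _ h2 ih => exact hO _ _ ih h2.1 h2.2.1 h2.2.2

lemma reach_end {p0 z q : V} (hz : z ∈ O) (h1 : UC (O ∩ S) p0 z) (h2 : DC R S z q) :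
    UC (O ∩ S) p0 q :=
  h1.trans (h2.uc hR fun _ hw h3 _ => ⟨dc_closed hO h3 hz, hw⟩)

omit hO in
lemma dc_mid {p q : V} (h : DC R S p q) :
    UC {z | z ∈ S ∧ DC R S p z ∧ DC R S z q} p q :=
  h.uc hR fun _ h1 h2 h3 => ⟨h1, h2, h3⟩

/-- gluing through an up-going and a down-going crossing -/
lemma glue {I : Set V} {L Rr B T c d c' d' x0 x1 x2 x3 : ℤ} (hS : S ⊆ Rc L Rr B T)
    (h1 : UC (O ∩ S) (L, c) (Rr, d)) (m1 : (L, c) ∈ O ∩ S)
    (h2 : UC (I ∩ S) (L, c') (Rr, d')) (m2 : (L, c') ∈ I ∩ S)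
    (h3 : DC R S (x0, B) (x1, T)) (m3 : (x0, B) ∈ S)
    (h4 : DC R S (x2, T) (x3, B)) (m4 : (x2, T) ∈ S) : ∃ z ∈ S, z ∈ O ∧ z ∈ I := by
  have hP : {z | z ∈ O ∩ S ∧ UC (O ∩ S) (L, c) z} ⊆ Rc L Rr B T := fun z h => hS h.1.2
  obtain ⟨z1, a1, a2⟩ := cross_HV hP (fun z h => hS h.1) h1.comp ⟨m1, ReflTransGen.refl⟩
    (dc_mid hR h3) ⟨m3, ReflTransGen.refl, h3⟩
  obtain ⟨z2, b1, b2⟩ := cross_HV hP (fun z h => hS h.1) h1.comp ⟨m1, ReflTransGen.refl⟩
    (dc_mid hR h4).symm ⟨h4.mem m4, h4, ReflTransGen.refl⟩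
  have e1 := reach_end hR hO a1.1.1 a1.2 a2.2.2
  have e2 := reach_end hR hO b1.1.1 b1.2 b2.2.2
  obtain ⟨z, c1, c2⟩ := cross_HV (fun z h => hS h.2) (fun z h => hS h.2) h2 m2
    (e2.symm.trans e1) (e2.mem m1)
  exact ⟨z, c1.2, c2.1, c1.1⟩

/-- gluing through two diagonal paths -/
lemma glue_diag {I : Set V} {L Rr lo hi y1 mR mL y2 u l u' l' : ℤ}
    (hS : ∀ z ∈ S, L ≤ z.1 ∧ z.1 ≤ Rr)
    (h1 : UC (O ∩ S) (L, y1) (Rr, mR)) (m1 : (L, y1) ∈ O ∩ S)
    (h2 : UC (I ∩ S) (L, mL) (Rr, y2)) (m2 : (L, mL) ∈ I ∩ S)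
    (h3 : DC R S (Rr, u) (L, l)) (m3 : (Rr, u) ∈ S)
    (h4 : DC R S (Rr, u') (L, l')) (m4 : (Rr, u') ∈ S)
    (i1 : lo ≤ mR) (i2 : mR ≤ hi) (i3 : lo ≤ mL) (i4 : mL ≤ hi) (i5 : hi ≤ u) (i6 : l ≤ lo)
    (i7 : u' ≤ lo) (i8 : hi ≤ l') : ∃ z ∈ S, z ∈ O ∧ z ∈ I := by
  have hP : ∀ z ∈ {z | z ∈ O ∩ S ∧ UC (O ∩ S) (L, y1) z}, L ≤ z.1 ∧ z.1 ≤ Rr :=
    fun z h => hS z h.1.2
  have hOS : ∀ z ∈ O ∩ S, L ≤ z.1 ∧ z.1 ≤ Rr := fun z h => hS z h.2
  have hIS : ∀ z ∈ I ∩ S, L ≤ z.1 ∧ z.1 ≤ Rr := fun z h => hS z h.2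
  have fin1 : ∀ y, UC (O ∩ S) (L, y) (Rr, mR) → (L, y) ∈ O ∩ S → mL ≤ y → mR ≤ y2 →
      ∃ z ∈ S, z ∈ O ∧ z ∈ I := by
    intro y k1 k2 k3 k4
    obtain ⟨z, c1, c2⟩ := cross_X hIS hOS h2 m2 k1 k2 k3 k4
    exact ⟨z, c1.2, c2.1, c1.1⟩
  have fin2 : ∀ y, UC (O ∩ S) (L, y) (Rr, mR) → (L, y) ∈ O ∩ S → y ≤ mL → y2 ≤ mR →
      ∃ z ∈ S, z ∈ O ∧ z ∈ I := by
    intro y k1 k2 k3 k4
    obtain ⟨z, c1, c2⟩ := cross_X hOS hIS k1 k2 h2 m2 k3 k4
    exact ⟨z, c1.2, c1.1, c2.1⟩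
  rcases le_total mL y1 with j1 | j1 <;> rcases le_total mR y2 with j2 | j2
  · exact fin1 _ h1 m1 j1 j2
  · obtain ⟨z, a2, a1⟩ := cross_X (fun z h => hS z h.1) hP (dc_mid hR h3).symm
      ⟨h3.mem m3, h3, ReflTransGen.refl⟩ h1.comp ⟨m1, ReflTransGen.refl⟩ (by omega) (by omega)
    have e := reach_end hR hO a1.1.1 a1.2 a2.2.2
    exact fin2 _ (e.symm.trans h1) (e.mem m1) (by omega) j2
  · obtain ⟨z, a1, a2⟩ := cross_X hP (fun z h => hS z h.1) h1.comp ⟨m1, ReflTransGen.refl⟩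
      (dc_mid hR h4).symm ⟨h4.mem m4, h4, ReflTransGen.refl⟩ (by omega) (by omega)
    have e := reach_end hR hO a1.1.1 a1.2 a2.2.2
    exact fin1 _ (e.symm.trans h1) (e.mem m1) (by omega) j2
  · exact fin2 _ h1 m1 j1 j2

end

end Pool.Agent.MP_57c4af_pr

end

-- part MP_57c4af_pr.Prob
section

/-! Connection events, their symmetries, uniformly positive families. -/

open MeasureTheory Set Relation Function
open scoped ENNReal

namespace Pool.Agent.MP_57c4af_pr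

/-- a directed open path inside `D` from `S` to `T` -/
def Conn (ε : ℝ) (D S T : Set V) : Set Cf :=
  {U | ∃ a ∈ S, ∃ b ∈ T, a ∈ D ∧ DC (Opn ε U) D a b}

def IncE (ε : ℝ) (A : Set Cf) : Prop := ∃ Λ, Inc ε Λ A

lemma DC.map {R R' : V → V → Prop} {D D' : Set V} (φ : V → V)
    (h1 : ∀ u ∈ D, ∀ v ∈ D, R u v → R' (φ u) (φ v)) (h2 : ∀ u ∈ D, φ u ∈ D') {a b : V}
    (h : DC R D a b) : DC R' D' (φ a) (φ b) := by
  induction h with
  | refl => exact ReflTransGen.refl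
  | tail _ h3 ih =>
    exact ReflTransGen.tail ih ⟨h2 _ h3.1, h2 _ h3.2.1, h1 _ h3.1 _ h3.2.1 h3.2.2⟩

lemma Rc_finite (L R B T : ℤ) : (Rc L R B T).Finite :=
  ((finite_Icc L R).prod (finite_Icc B T)).subset fun _ h => ⟨⟨h.1, h.2.1⟩, h.2.2⟩

lemma inc_conn (ε : ℝ) {D : Set V} (hD : D.Finite) (S T : Set V) : IncE ε (Conn ε D S T) := by
  refine ⟨hD.toFinset, fun U U' h ⟨a, ha, b, hb, h1, h2⟩ => ⟨a, ha, b, hb, h1, ?_⟩⟩
  exact h2.map id (fun u hu v hv => h u (by simpa) v (by simpa)) fun _ h => h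

lemma IncE.meas {ε : ℝ} {A : Set Cf} (h : IncE ε A) : MeasurableSet A := h.choose_spec.meas

lemma mp_comp {φ : V → V} (hφ : Injective φ) :
    MeasurePreserving (fun (U : Cf) v => U (φ v)) law law :=
  ⟨by fun_prop, Measure.map_infinitePi_infinitePi_of_inj (P := fun _ : V => volume) hφ⟩

lemma mp_flip : MeasurePreserving (fun (U : Cf) v => unitInterval.symm (U v)) law law := by
  refine ⟨measurable_pi_lambda _ fun v =>
    unitInterval.measurable_symm.comp (measurable_pi_apply v), ?_⟩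
  unfold law
  rw [Measure.infinitePi_map_pi (fun _ : V => (volume : Measure unitInterval))
    (f := fun _ => unitInterval.symm) fun _ => unitInterval.measurable_symm]
  simp only [unitInterval.measurePreserving_symm.map_eq]

lemma law_flip (ε : ℝ) {D : Set V} (hD : D.Finite) (S T : Set V) :
    law (Conn ε D S T) ≤ law (Conn ε D T S) := by
  rw [← mp_flip.measure_preimage (inc_conn ε hD S T).meas.nullMeasurableSet]
  refine measure_mono ?_
  rintro U ⟨a, ha, b, hb, h1, h2⟩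
  refine ⟨b, hb, a, ha, h2.mem h1, h2.flip.map id (fun u _ v _ h => ⟨h.1.symm, ?_⟩) fun _ h => h⟩
  have := h.2
  simp only [unitInterval.coe_symm_eq] at this
  simp only [id]
  linarith

def Iso (φ : V → V) : Prop := Injective φ ∧ ∀ a b, Adj a b → Adj (φ a) (φ b)

lemma law_sym (ε : ℝ) {D S T D' S' T' : Set V} (hD : D.Finite) {φ : V → V} (hφ : Iso φ)
    (h : ∀ z ∈ D, φ z ∈ D' ∧ (z ∈ S → φ z ∈ S') ∧ (z ∈ T → φ z ∈ T')) :
    law (Conn ε D S T) ≤ law (Conn ε D' S' T') := by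
  rw [← (mp_comp hφ.1).measure_preimage (inc_conn ε hD S T).meas.nullMeasurableSet]
  refine measure_mono ?_
  rintro U ⟨a, ha, b, hb, h1, h2⟩
  exact ⟨φ a, (h a h1).2.1 ha, φ b, (h b (h2.mem h1)).2.2 hb, (h a h1).1,
    h2.map φ (fun u _ v _ h => ⟨hφ.2 _ _ h.1, h.2⟩) fun u hu => (h u hu).1⟩

lemma iso1 (a b : ℤ) {s t : ℤ} (hs : s = 1 ∨ s = -1) (ht : t = 1 ∨ t = -1) :
    Iso fun v => (a + s * v.1, b + t * v.2) := by
  constructor
  · intro u v h
    simp only [Prod.ext_iff] at h ⊢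
    rcases hs with rfl | rfl <;> rcases ht with rfl | rfl <;> omega
  · intro u v h
    simp only [Adj] at h ⊢
    rcases hs with rfl | rfl <;> rcases ht with rfl | rfl <;> omega

lemma iso2 (a b : ℤ) {s t : ℤ} (hs : s = 1 ∨ s = -1) (ht : t = 1 ∨ t = -1) :
    Iso fun v => (a + s * v.2, b + t * v.1) := by
  constructor
  · intro u v h
    simp only [Prod.ext_iff] at h ⊢
    rcases hs with rfl | rfl <;> rcases ht with rfl | rfl <;> omega
  · intro u v h
    simp only [Adj] at h ⊢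
    rcases hs with rfl | rfl <;> rcases ht with rfl | rfl <;> omega

/-- a family of increasing events with probabilities bounded below -/
def UP (ε : ℝ) {ι : Type} (A : ι → Set Cf) : Prop :=
  ∃ c : ℝ≥0∞, 0 < c ∧ ∀ i, IncE ε (A i) ∧ c ≤ law (A i)

variable {ε : ℝ} {ι : Type}

lemma UP.inter (hε : 0 < ε) {A B : ι → Set Cf} (hA : UP ε A) (hB : UP ε B) :
    UP ε fun i => A i ∩ B i := by
  obtain ⟨C, hC⟩ := qfkg hε
  obtain ⟨a, a0, ha⟩ := hA
  obtain ⟨b, b0, hb⟩ := hB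
  refine ⟨(a * b) ^ C, ENNReal.pow_pos (ENNReal.mul_pos a0.ne' b0.ne') _, fun i => ?_⟩
  obtain ⟨⟨Λ, h1⟩, h2⟩ := ha i
  obtain ⟨⟨Λ', h3⟩, h4⟩ := hb i
  have h5 := h1.mono (Finset.subset_union_left (s₂ := Λ'))
  have h6 := h3.mono (Finset.subset_union_right (s₁ := Λ))
  refine ⟨⟨_, h5.inter h6⟩, le_trans ?_ (hC _ _ _ h5 h6)⟩
  gcongr

lemma UP.le {κ : Type} {A : κ → Set Cf} {B : ι → Set Cf} (hA : UP ε A) (f : ι → κ)
    (h1 : ∀ i, IncE ε (B i)) (h2 : ∀ i, law (A (f i)) ≤ law (B i)) : UP ε B := by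
  obtain ⟨a, a0, ha⟩ := hA
  exact ⟨a, a0, fun i => ⟨h1 i, (ha _).2.trans (h2 i)⟩⟩

/-- uniformly positive family of connections in rectangles -/
def UC3 (ε : ℝ) {ι : Type} (D S T : ι → Set V) : Prop :=
  (∀ i, (D i).Finite) ∧ UP ε fun i => Conn ε (D i) (S i) (T i)

lemma UC3.flip {D S T : ι → Set V} (h : UC3 ε D S T) : UC3 ε D T S :=
  ⟨h.1, h.2.le id (fun i => inc_conn ε (h.1 i) _ _) fun i => law_flip ε (h.1 i) _ _⟩

lemma UC3.sym {D S T D' S' T' : ι → Set V} (h : UC3 ε D S T) (hD : ∀ i, (D' i).Finite)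
    {φ : ι → V → V} (hφ : ∀ i, Iso (φ i))
    (h2 : ∀ i, ∀ z ∈ D i, φ i z ∈ D' i ∧ (z ∈ S i → φ i z ∈ S' i) ∧ (z ∈ T i → φ i z ∈ T' i)) :
    UC3 ε D' S' T' :=
  ⟨hD, h.2.le id (fun i => inc_conn ε (hD i) _ _) fun i => law_sym ε (h.1 i) (hφ i) (h2 i)⟩

lemma UC3.of_sub {A : ι → Set Cf} {D S T : ι → Set V} (h : UP ε A) (hD : ∀ i, (D i).Finite)
    (h2 : ∀ i, A i ⊆ Conn ε (D i) (S i) (T i)) : UC3 ε D S T :=
  ⟨hD, h.le id (fun i => inc_conn ε (hD i) _ _) fun i => measure_mono (h2 i)⟩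

lemma UC3.trans (hε : 0 < ε) {D S T : ι → Set V} {x y : ι → ℤ}
    (h : UC3 ε D S fun i => Rc (x i) (x i) (y i) (y i))
    (h' : UC3 ε D (fun i => Rc (x i) (x i) (y i) (y i)) T) : UC3 ε D S T := by
  refine UC3.of_sub (h.2.inter hε h'.2) h.1 ?_
  rintro i U ⟨⟨a, ha, b, hb, h1, h2⟩, c, hc, d, hd, _, h4⟩
  obtain rfl : b = c := by
    simp only [mem_Rc, Prod.ext_iff] at hb hc ⊢
    omega
  exact ⟨a, ha, d, hd, h1, h2.trans h4⟩

end Pool.Agent.MP_57c4af_pr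

end

-- part MP_57c4af_pr.Glue
section

/-! Deterministic gluing of connection events. -/

open Set Relation

namespace Pool.Agent.MP_57c4af_pr

/-- points reached from `A` inside `D` -/
def OutS (R : V → V → Prop) (D A : Set V) : Set V := {v | ∃ a ∈ A, a ∈ D ∧ DC R D a v}

/-- points leading to `A` inside `D` -/
def InS (R : V → V → Prop) (D A : Set V) : Set V := {v | ∃ b ∈ A, DC R D v b}

lemma outS_closed {R : V → V → Prop} {D S : Set V} (A : Set V) (h : S ⊆ D) :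
    ∀ u v, u ∈ OutS R D A → u ∈ S → v ∈ S → R u v → v ∈ OutS R D A :=
  fun _ _ ⟨a, a1, a2, a3⟩ hu hv huv => ⟨a, a1, a2, a3.tail ⟨h hu, h hv, huv⟩⟩

lemma out_half {R : V → V → Prop} (hR : ∀ u v, R u v → Adj u v) {D A : Set V}
    {x0 L Rr B T : ℤ} (hL : L ≤ Rr) (h0 : x0 ≤ L) (hD : Rc x0 Rr B T ⊆ D) {a b : V} (ha : a ∈ A)
    (ha1 : a ∈ Rc x0 Rr B T) (ha2 : a.1 ≤ L) (hb : b.1 = Rr) (h : DC R (Rc x0 Rr B T) a b) :
    ∃ c, (L, c) ∈ OutS R D A ∩ Rc L Rr B T ∧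
      UC (OutS R D A ∩ Rc L Rr B T) (L, c) (Rr, b.2) := by
  obtain ⟨c, c1, c2, c3⟩ := h.last hR (L := L) ha1 ha2 (by omega)
  have m : (L, c) ∈ OutS R D A := ⟨a, ha, hD ha1, c2.mono hD⟩
  have hS : Rc L Rr B T ⊆ D := fun z hz => hD (by simp only [mem_Rc] at hz ⊢; omega)
  refine ⟨c, ⟨m, by simp only [mem_Rc] at c1 ⊢; omega⟩, ?_⟩
  have e : b = (Rr, b.2) := Prod.ext hb rfl
  rw [← e]
  refine reach_end hR (outS_closed A hS) m ReflTransGen.refl (c3.mono fun z hz => ?_)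
  simp only [mem_Rc, mem_inter_iff, mem_ofPred_eq] at hz ⊢
  omega

lemma in_half {R : V → V → Prop} (hR : ∀ u v, R u v → Adj u v) {D A : Set V}
    {x1 L Rr B T : ℤ} (hL : L ≤ Rr) (hD : Rc L x1 B T ⊆ D) {a b : V} (hb : b ∈ A)
    (ha1 : a ∈ Rc L x1 B T) (ha2 : a.1 = L) (hb2 : Rr ≤ b.1) (h : DC R (Rc L x1 B T) a b) :
    ∃ c, (L, a.2) ∈ InS R D A ∩ Rc L Rr B T ∧
      UC (InS R D A ∩ Rc L Rr B T) (L, a.2) (Rr, c) := by
  obtain ⟨c, c1, c2, c3⟩ := h.first hR (L := Rr) (h.mem ha1) (by omega) hb2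
  have e : a = (L, a.2) := Prod.ext ha2 rfl
  rw [← e]
  refine ⟨c, ⟨⟨b, hb, h.mono hD⟩, by simp only [mem_Rc] at ha1 ⊢; omega⟩, ?_⟩
  refine c2.uc hR fun z hz _ h4 =>
    ⟨⟨b, hb, ((h4.mono inter_subset_left).trans c3).mono hD⟩, ?_⟩
  simp only [mem_Rc, mem_inter_iff, mem_ofPred_eq] at hz ⊢
  omega

lemma opn_adj (ε : ℝ) (U : Cf) : ∀ u v, Opn ε U u v → Adj u v := fun _ _ h => h.1

lemma pt_fst {a : V} {x : ℤ} (h1 : x ≤ a.1) (h2 : a.1 ≤ x) : a = (x, a.2) :=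
  Prod.ext (le_antisymm h2 h1) rfl

lemma pt_snd {a : V} {y : ℤ} (h1 : y ≤ a.2) (h2 : a.2 ≤ y) : a = (a.1, y) :=
  Prod.ext rfl (le_antisymm h2 h1)

lemma step0 {ε : ℝ} {x0 L Rr x1 B T lo hi : ℤ} (h0 : x0 ≤ L) (hL : L ≤ Rr) (h1 : Rr ≤ x1) :
    Conn ε (Rc x0 Rr B T) (Rc x0 x0 B T) (Rc Rr Rr lo hi) ∩
    Conn ε (Rc L x1 B T) (Rc L L lo hi) (Rc x1 x1 B T) ∩
    (Conn ε (Rc L Rr B T) (Rc Rr Rr hi T) (Rc L L B lo) ∩
    Conn ε (Rc L Rr B T) (Rc Rr Rr B lo) (Rc L L hi T)) ⊆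
    Conn ε (Rc x0 x1 B T) (Rc x0 x0 B T) (Rc x1 x1 B T) := by
  rintro U ⟨⟨⟨a, a1, b, b1, a2, p1⟩, a', a1', b', b1', a2', p2⟩,
    ⟨c, c1, d, d1, c2, p3⟩, c', c1', d', d1', c2', p4⟩
  have hR := opn_adj ε U
  have s1 : Rc x0 Rr B T ⊆ Rc x0 x1 B T := fun z hz => by simp only [mem_Rc] at hz ⊢; omega
  have s2 : Rc L x1 B T ⊆ Rc x0 x1 B T := fun z hz => by simp only [mem_Rc] at hz ⊢; omega
  have s3 : Rc L Rr B T ⊆ Rc x0 x1 B T := fun z hz => by simp only [mem_Rc] at hz ⊢; omega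
  obtain ⟨y1, m1, u1⟩ := out_half hR hL h0 s1 a1 a2 (a1.2.1.trans h0)
    (le_antisymm b1.2.1 b1.1) p1
  obtain ⟨y2, m2, u2⟩ := in_half hR hL s2 b1' a2' (le_antisymm a1'.2.1 a1'.1)
    (h1.trans b1'.1) p2
  rw [pt_fst c1.1 c1.2.1] at c2 p3
  rw [pt_fst c1'.1 c1'.2.1] at c2' p4
  rw [pt_fst d1.1 d1.2.1] at p3
  rw [pt_fst d1'.1 d1'.2.1] at p4
  obtain ⟨z, _, ⟨p, q1, q2, q3⟩, q, q4, q5⟩ := glue_diag hR (outS_closed _ s3)
    (fun z hz => ⟨hz.1, hz.2.1⟩) u1 m1 u2 m2 p3 c2 p4 c2' b1.2.2.1 b1.2.2.2 a1'.2.2.1 a1'.2.2.2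
    c1.2.2.1 d1.2.2.2 c1'.2.2.2 d1'.2.2.1
  exact ⟨p, q1, q, q4, q2, q3.trans q5⟩

lemma step1 {ε : ℝ} {x0 L Rr x1 B T : ℤ} (h0 : x0 ≤ L) (hL : L ≤ Rr) (h1 : Rr ≤ x1) :
    Conn ε (Rc x0 Rr B T) (Rc x0 x0 B T) (Rc Rr Rr B T) ∩
    Conn ε (Rc L x1 B T) (Rc L L B T) (Rc x1 x1 B T) ∩
    (Conn ε (Rc L Rr B T) (Rc L Rr B B) (Rc L Rr T T) ∩
    Conn ε (Rc L Rr B T) (Rc L Rr T T) (Rc L Rr B B)) ⊆
    Conn ε (Rc x0 x1 B T) (Rc x0 x0 B T) (Rc x1 x1 B T) := by
  rintro U ⟨⟨⟨a, a1, b, b1, a2, p1⟩, a', a1', b', b1', a2', p2⟩,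
    ⟨c, c1, d, d1, c2, p3⟩, c', c1', d', d1', c2', p4⟩
  have hR := opn_adj ε U
  have s1 : Rc x0 Rr B T ⊆ Rc x0 x1 B T := fun z hz => by simp only [mem_Rc] at hz ⊢; omega
  have s2 : Rc L x1 B T ⊆ Rc x0 x1 B T := fun z hz => by simp only [mem_Rc] at hz ⊢; omega
  have s3 : Rc L Rr B T ⊆ Rc x0 x1 B T := fun z hz => by simp only [mem_Rc] at hz ⊢; omega
  obtain ⟨y1, m1, u1⟩ := out_half hR hL h0 s1 a1 a2 (a1.2.1.trans h0)
    (le_antisymm b1.2.1 b1.1) p1
  obtain ⟨y2, m2, u2⟩ := in_half hR hL s2 b1' a2' (le_antisymm a1'.2.1 a1'.1)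
    (h1.trans b1'.1) p2
  rw [pt_snd c1.2.2.1 c1.2.2.2] at c2 p3
  rw [pt_snd c1'.2.2.1 c1'.2.2.2] at c2' p4
  rw [pt_snd d1.2.2.1 d1.2.2.2] at p3
  rw [pt_snd d1'.2.2.1 d1'.2.2.2] at p4
  obtain ⟨z, _, ⟨p, q1, q2, q3⟩, q, q4, q5⟩ := glue hR (outS_closed _ s3)
    subset_rfl u1 m1 u2 m2 p3 c2 p4 c2'
  exact ⟨p, q1, q, q4, q2, q3.trans q5⟩

/-- the origin is strongly connected to a point with abscissa at least `r` -/
def Far (ε : ℝ) (r : ℤ) : Set Cf :=
  {U | ∃ z : V, r ≤ z.1 ∧ ReflTransGen (Opn ε U) 0 z ∧ ReflTransGen (Opn ε U) z 0}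

lemma DC.reach {R : V → V → Prop} {D : Set V} {a b : V} (h : DC R D a b) :
    ReflTransGen R a b := by
  induction h with
  | refl => exact ReflTransGen.refl
  | tail _ h2 ih => exact ih.tail h2.2.2

lemma step2 {ε : ℝ} {x0 L Rr B T : ℤ} (h0 : x0 ≤ L) (hL : L ≤ Rr) (h1 : 0 ≤ L) :
    Conn ε (Rc x0 Rr B T) (Rc 0 0 0 0) (Rc Rr Rr B T) ∩
    Conn ε (Rc x0 Rr B T) (Rc Rr Rr B T) (Rc 0 0 0 0) ∩
    (Conn ε (Rc L Rr B T) (Rc L Rr B B) (Rc L Rr T T) ∩
    Conn ε (Rc L Rr B T) (Rc L Rr T T) (Rc L Rr B B)) ⊆ Far ε L := by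
  rintro U ⟨⟨⟨a, a1, b, b1, a2, p1⟩, a', a1', b', b1', a2', p2⟩,
    ⟨c, c1, d, d1, c2, p3⟩, c', c1', d', d1', c2', p4⟩
  have hR := opn_adj ε U
  have s3 : Rc L Rr B T ⊆ Rc x0 Rr B T := fun z hz => by simp only [mem_Rc] at hz ⊢; omega
  obtain ⟨y1, m1, u1⟩ := out_half hR hL h0 subset_rfl a1 a2 (a1.2.1.trans h1)
    (le_antisymm b1.2.1 b1.1) p1
  obtain ⟨y2, m2, u2⟩ := out_half (R := fun u v => Opn ε U v u) (fun u v h => (hR _ _ h).symm)
    hL h0 subset_rfl b1' (p2.mem a2') (b1'.2.1.trans h1) (le_antisymm a1'.2.1 a1'.1) p2.flip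
  rw [pt_snd c1.2.2.1 c1.2.2.2] at c2 p3
  rw [pt_snd c1'.2.2.1 c1'.2.2.2] at c2' p4
  rw [pt_snd d1.2.2.1 d1.2.2.2] at p3
  rw [pt_snd d1'.2.2.1 d1'.2.2.2] at p4
  obtain ⟨z, z1, ⟨p, q1, -, q3⟩, q, q4, -, q5⟩ := glue hR (outS_closed _ s3)
    subset_rfl u1 m1 u2 m2 p3 c2 p4 c2'
  have e : ∀ w ∈ Rc 0 0 0 0, w = 0 := fun w hw => by
    simp only [mem_Rc, Prod.ext_iff, Prod.fst_zero, Prod.snd_zero] at hw ⊢; omega
  rw [e p q1] at q3
  rw [e q q4] at q5
  exact ⟨z, z1.1, q3.reach, q5.flip.reach⟩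

end Pool.Agent.MP_57c4af_pr

end

-- part MP_57c4af_pr.RSW
section

/-! Long directed crossings from arms (an adaptation of Tassion's argument). -/

open MeasureTheory Set Relation
open scoped ENNReal

namespace Pool.Agent.MP_57c4af_pr

variable {ε : ℝ} {ι : Type}

lemma p1 : (1 : ℤ) = 1 ∨ (1 : ℤ) = -1 := Or.inl rfl
lemma n1 : (-1 : ℤ) = 1 ∨ (-1 : ℤ) = -1 := Or.inr rfl

/-- arms from the centre of a square to a segment of its right side -/
def ArmU (ε : ℝ) (n a b : ι → ℤ) : Prop :=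
  UC3 ε (fun i => Rc (-n i) (n i) (-n i) (n i)) (fun _ => Rc 0 0 0 0)
    fun i => Rc (n i) (n i) (a i) (b i)

/-- left to right crossings of `[0,w] × [0,h]` -/
def CrU (ε : ℝ) (w h : ι → ℤ) : Prop :=
  UC3 ε (fun i => Rc 0 (w i) 0 (h i)) (fun i => Rc 0 0 0 (h i)) fun i => Rc (w i) (w i) 0 (h i)

lemma two_arm (hε : 0 < ε) {n a b a' b' : ι → ℤ} (h : ArmU ε n a b) (h' : ArmU ε n a' b') :
    UC3 ε (fun i => Rc (-n i) (n i) (-n i) (n i)) (fun i => Rc (-n i) (-n i) (-b i) (-a i))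
      fun i => Rc (n i) (n i) (a' i) (b' i) := by
  refine UC3.trans hε (x := fun _ => 0) (y := fun _ => 0) (UC3.flip ?_) h'
  exact h.sym h.1 (fun _ => iso1 0 0 n1 n1) fun i z => by simp only [mem_Rc]; omega

lemma cr_ext (hε : 0 < ε) {r w l : ι → ℤ} (hr : ArmU ε r (fun _ => 0) r)
    (hw : CrU ε w fun i => 2 * r i) (hl : CrU ε l fun i => 2 * r i)
    (num : ∀ i, 0 ≤ r i ∧ 2 * r i ≤ w i ∧ 2 * r i ≤ l i) :
    CrU ε (fun i => w i - 2 * r i + l i) fun i => 2 * r i := by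
  have e2 : UC3 ε (fun i => Rc (w i - 2 * r i) (w i - 2 * r i + l i) 0 (2 * r i))
      (fun i => Rc (w i - 2 * r i) (w i - 2 * r i) 0 (2 * r i))
      fun i => Rc (w i - 2 * r i + l i) (w i - 2 * r i + l i) 0 (2 * r i) :=
    hl.sym (fun _ => Rc_finite ..) (fun i => iso1 (w i - 2 * r i) 0 p1 p1)
      fun i z => by simp only [mem_Rc]; omega
  have e3 : UC3 ε (fun i => Rc (w i - 2 * r i) (w i) 0 (2 * r i))
      (fun i => Rc (w i - 2 * r i) (w i) 0 0)
      fun i => Rc (w i - 2 * r i) (w i) (2 * r i) (2 * r i) :=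
    (two_arm hε hr hr).sym (fun _ => Rc_finite ..) (fun i => iso2 (w i - r i) (r i) p1 p1)
      fun i z => by simp only [mem_Rc]; omega
  exact UC3.of_sub ((hw.2.inter hε e2.2).inter hε (e3.2.inter hε e3.flip.2))
    (fun _ => Rc_finite ..) fun i =>
      step1 (by have := num i; omega) (by have := num i; omega) (by have := num i; omega)

lemma cr_base (hε : 0 < ε) {m n a a' r : ι → ℤ} (hn : ArmU ε n (fun _ => 0) n)
    (h1 : ArmU ε n (fun _ => 0) a) (h2 : ArmU ε m a' m)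
    (num : ∀ i, 0 ≤ a' i ∧ a' i ≤ m i ∧ a i ≤ 2 * a' i ∧ m i ≤ n i ∧ n i ≤ 2 * m i ∧
      n i + 2 * m i ≤ 2 * r i) :
    CrU ε (fun i => 4 * n i - 2 * m i) fun i => 2 * r i := by
  have e0 := two_arm hε hn h1
  have e1 : UC3 ε (fun i => Rc 0 (2 * n i) 0 (2 * r i)) (fun i => Rc 0 0 0 (2 * r i))
      fun i => Rc (2 * n i) (2 * n i) (n i) (n i + a i) :=
    e0.sym (fun _ => Rc_finite ..) (fun i => iso1 (n i) (n i) p1 p1)
      fun i z => by have := num i; simp only [mem_Rc]; omega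
  have e2 : UC3 ε (fun i => Rc (2 * n i - 2 * m i) (4 * n i - 2 * m i) 0 (2 * r i))
      (fun i => Rc (4 * n i - 2 * m i) (4 * n i - 2 * m i) 0 (2 * r i))
      fun i => Rc (2 * n i - 2 * m i) (2 * n i - 2 * m i) (n i) (n i + a i) :=
    e1.sym (fun _ => Rc_finite ..) (fun i => iso1 (4 * n i - 2 * m i) 0 n1 p1)
      fun i z => by simp only [mem_Rc]; omega
  have d := two_arm hε h2 h2
  have e3 : UC3 ε (fun i => Rc (2 * n i - 2 * m i) (2 * n i) 0 (2 * r i))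
      (fun i => Rc (2 * n i - 2 * m i) (2 * n i - 2 * m i) 0 (n i))
      fun i => Rc (2 * n i) (2 * n i) (n i + a i) (2 * r i) :=
    d.sym (fun _ => Rc_finite ..) (fun i => iso1 (2 * n i - m i) (n i + a' i) p1 p1)
      fun i z => by have := num i; simp only [mem_Rc]; omega
  have e4 : UC3 ε (fun i => Rc (2 * n i - 2 * m i) (2 * n i) 0 (2 * r i))
      (fun i => Rc (2 * n i - 2 * m i) (2 * n i - 2 * m i) (n i + a i) (2 * r i))
      fun i => Rc (2 * n i) (2 * n i) 0 (n i) :=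
    d.sym (fun _ => Rc_finite ..) (fun i => iso1 (2 * n i - m i) (n i + a' i) p1 n1)
      fun i z => by have := num i; simp only [mem_Rc]; omega
  exact UC3.of_sub ((e1.2.inter hε e2.flip.2).inter hε (e3.flip.2.inter hε e4.flip.2))
    (fun _ => Rc_finite ..) fun i =>
      step0 (by have := num i; omega) (by have := num i; omega) (by have := num i; omega)

lemma cr_iter (hε : 0 < ε) {r l : ι → ℤ} (hr : ArmU ε r (fun _ => 0) r)
    (hl : CrU ε l fun i => 2 * r i) (num : ∀ i, 0 ≤ r i ∧ 2 * r i ≤ l i) (k : ℕ) :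
    ∃ w : ι → ℤ, (∀ i, w i = l i + k * (l i - 2 * r i) ∧ 2 * r i ≤ w i) ∧
      CrU ε w fun i => 2 * r i := by
  induction k with
  | zero => exact ⟨l, fun i => ⟨by simp, (num i).2⟩, hl⟩
  | succ k ih =>
    obtain ⟨w, h1, h2⟩ := ih
    refine ⟨_, fun i => ⟨?_, ?_⟩,
      cr_ext hε hr h2 hl fun i => ⟨(num i).1, (h1 i).2, (num i).2⟩⟩
    · rw [(h1 i).1]; push_cast; ring
    · have := num i
      have := (h1 i).2
      omega

lemma far_of_cr (hε : 0 < ε) {r w : ι → ℤ}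
    (hr : ArmU ε (fun i => 3 * r i) (fun _ => 0) fun i => 3 * r i)
    (hw : CrU ε w fun i => 2 * r i) (num : ∀ i, 0 ≤ r i ∧ 6 * r i ≤ w i) :
    ∃ c : ℝ≥0∞, 0 < c ∧ ∀ i, c ≤ law (Far ε (r i)) := by
  have e1 : UC3 ε (fun i => Rc (-(3 * r i)) (3 * r i) (-(3 * r i)) (w i - 3 * r i))
      (fun _ => Rc 0 0 0 0) fun i => Rc (3 * r i) (3 * r i) (-(3 * r i)) (w i - 3 * r i) :=
    hr.sym (fun _ => Rc_finite ..) (fun i => iso1 0 0 p1 p1)
      fun i z => by have := num i; simp only [mem_Rc]; omega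
  have e3 : UC3 ε (fun i => Rc (r i) (3 * r i) (-(3 * r i)) (w i - 3 * r i))
      (fun i => Rc (r i) (3 * r i) (-(3 * r i)) (-(3 * r i)))
      fun i => Rc (r i) (3 * r i) (w i - 3 * r i) (w i - 3 * r i) :=
    hw.sym (fun _ => Rc_finite ..) (fun i => iso2 (r i) (-(3 * r i)) p1 p1)
      fun i z => by simp only [mem_Rc]; omega
  obtain ⟨c, c0, hc⟩ := (e1.2.inter hε e1.flip.2).inter hε (e3.2.inter hε e3.flip.2)
  exact ⟨c, c0, fun i => (hc i).2.trans (measure_mono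
    (step2 (by have := num i; omega) (by have := num i; omega) (num i).1))⟩

lemma good_scale (al : ℕ → ℕ) (h : ∀ n, al n ≤ n) (N : ℕ) :
    ∃ m, N ≤ m ∧ al (m + m / 2) ≤ 2 * al m := by
  by_contra hn
  push Not at hn
  have key : ∀ k : ℕ, ∃ s, N ≤ s ∧ 2 ^ k ≤ al s + 1 ∧ 2 ^ k * s ≤ 3 ^ k * N := by
    intro k
    induction k with
    | zero => exact ⟨N, le_rfl, by simp, by simp⟩
    | succ k ih =>
      obtain ⟨s, s1, s2, s3⟩ := ih
      have := hn s s1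
      refine ⟨s + s / 2, by omega, by rw [pow_succ]; omega, ?_⟩
      have e : 2 * (s + s / 2) ≤ 3 * s := by omega
      calc 2 ^ (k + 1) * (s + s / 2) = 2 ^ k * (2 * (s + s / 2)) := by ring
        _ ≤ 2 ^ k * (3 * s) := Nat.mul_le_mul_left _ e
        _ = 3 * (2 ^ k * s) := by ring
        _ ≤ 3 * (3 ^ k * N) := Nat.mul_le_mul_left _ s3
        _ = 3 ^ (k + 1) * N := by ring
  have b : ∀ k : ℕ, 3 ^ k * (3 + k) ≤ 3 * (2 ^ k * 2 ^ k) ∧ 2 ^ k ≤ 3 ^ k := by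
    intro k
    refine ⟨?_, Nat.pow_le_pow_left (by norm_num) k⟩
    induction k with
    | zero => simp
    | succ k ih =>
      calc 3 ^ (k + 1) * (3 + (k + 1)) = 3 ^ k * (12 + 3 * k) := by ring
        _ ≤ 3 ^ k * (4 * (3 + k)) := Nat.mul_le_mul_left _ (by omega)
        _ = 4 * (3 ^ k * (3 + k)) := by ring
        _ ≤ 4 * (3 * (2 ^ k * 2 ^ k)) := Nat.mul_le_mul_left _ ih
        _ = 3 * (2 ^ (k + 1) * 2 ^ (k + 1)) := by ring
  obtain ⟨s, -, s2, s3⟩ := key (3 * (N + 1))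
  obtain ⟨b1, b2⟩ := b (3 * (N + 1))
  have s4 := Nat.mul_le_mul_left (2 ^ (3 * (N + 1))) (s2.trans (Nat.add_le_add_right (h s) 1))
  have p : 0 < 3 ^ (3 * (N + 1)) := by positivity
  generalize 2 ^ (3 * (N + 1)) = x at *
  generalize 3 ^ (3 * (N + 1)) = y at *
  nlinarith

/-- the basic arm event -/
def Arm (ε : ℝ) (n a b : ℤ) : Set Cf := Conn ε (Rc (-n) n (-n) n) (Rc 0 0 0 0) (Rc n n a b)

lemma exists_al {c : ℝ≥0∞} (hc : ∀ n : ℕ, c ≤ law (Arm ε n 0 n)) (n : ℕ) :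
    ∃ a : ℕ, a ≤ n ∧ c / 2 ≤ law (Arm ε n 0 a) ∧ c / 2 ≤ law (Arm ε n a n) := by
  classical
  have h0 : c / 2 ≤ law (Arm ε n 0 n) := ENNReal.half_le_self.trans (hc n)
  have ex : ∃ a : ℕ, c / 2 ≤ law (Arm ε n 0 a) := ⟨n, h0⟩
  refine ⟨Nat.find ex, Nat.find_min' ex h0, Nat.find_spec ex, ?_⟩
  rcases h : Nat.find ex with _ | k
  · exact h0
  · have h1 := not_le.1 (Nat.find_min ex (m := k) (by omega))
    by_contra h2
    have h3 := ENNReal.add_lt_add h1 (not_le.1 h2)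
    rw [ENNReal.add_halves] at h3
    refine h3.not_ge ((hc n).trans (le_trans (measure_mono ?_) (measure_union_le _ _)))
    rintro U ⟨a, ha, b, hb, h4⟩
    by_cases h5 : b.2 ≤ k
    · exact Or.inl ⟨a, ha, b, by simp only [mem_Rc] at hb ⊢; omega, h4⟩
    · exact Or.inr ⟨a, ha, b, by simp only [mem_Rc] at hb ⊢; omega, h4⟩

theorem far_pos (hε : 0 < ε) {c : ℝ≥0∞} (c0 : 0 < c) (hc : ∀ n : ℕ, c ≤ law (Arm ε n 0 n)) :
    ∃ c' : ℝ≥0∞, 0 < c' ∧ ∀ N : ℕ, c' ≤ law (Far ε N) := by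
  choose al h1 h2 h3 using exists_al hc
  choose m m1 m2 using fun N => good_scale al h1 (N + 12)
  have c2 : 0 < c / 2 := ENNReal.half_pos c0.ne'
  have arm : ∀ (c : ℝ≥0∞) (n a b : ℕ → ℤ), 0 < c → (∀ i, c ≤ law (Arm ε (n i) (a i) (b i))) →
      ArmU ε n a b := fun c n a b c0 h =>
    ⟨fun _ => Rc_finite .., c, c0, fun i => ⟨inc_conn ε (Rc_finite ..) _ _, h i⟩⟩
  have full : ∀ f : ℕ → ℤ, (∀ i, 0 ≤ f i) → ArmU ε f (fun _ => 0) f := fun f hf =>
    arm c _ _ _ c0 fun i => by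
      have := hc (f i).toNat
      rwa [Int.toNat_of_nonneg (hf i)] at this
  let r : ℕ → ℤ := fun i => ((3 * m i + m i / 2 + 1) / 2 : ℕ)
  have hr : ∀ i, r i = ((3 * m i + m i / 2 + 1) / 2 : ℕ) := fun _ => rfl
  have b := cr_base hε (m := fun i => m i) (n := fun i => (m i + m i / 2 : ℕ))
    (a := fun i => al (m i + m i / 2)) (a' := fun i => al (m i)) (r := r)
    (full _ fun i => by omega) (arm _ _ _ _ c2 fun i => h2 _) (arm _ _ _ _ c2 fun i => h3 _)
    fun i => by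
      have := hr i
      have := h1 (m i)
      have := m2 i
      omega
  obtain ⟨w, w1, w2⟩ := cr_iter hε (full r fun i => by have := hr i; omega) b
    (fun i => by have := hr i; have := m1 i; omega) 32
  obtain ⟨c', c1, h⟩ := far_of_cr hε (full _ fun i => by have := hr i; omega) w2 fun i => by
    have := hr i
    have := m1 i
    have := (w1 i).1
    push_cast at this
    omega
  refine ⟨c', c1, fun N => (h N).trans (measure_mono ?_)⟩
  rintro U ⟨z, z1, z2⟩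
  refine ⟨z, le_trans ?_ z1, z2⟩
  have := hr N
  have := m1 N
  omega

end Pool.Agent.MP_57c4af_pr

end

-- part MP_57c4af_pr.Final
section

/-! From weak to strong percolation. -/

open MeasureTheory Set Relation Function
open scoped ENNReal

namespace Pool.Agent.MP_57c4af_pr

lemma openEdge_iff (ε : ℝ) (U : Cf) (a b : V) : OpenEdge ε U a b ↔ Opn ε U a b := by
  refine and_congr_left fun _ => ?_
  simp only [Adj, Prod.ext_iff, Prod.fst_add, Prod.snd_add, Prod.fst_sub, Prod.snd_sub]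
  omega

lemma leads_iff (ε : ℝ) (U : Cf) (a b : V) : Leads ε U a b ↔ ReflTransGen (Opn ε U) a b := by
  constructor
  · rintro ⟨n, p, rfl, rfl, -, h⟩
    have : ∀ i ≤ n, ReflTransGen (Opn ε U) (p 0) (p i) := by
      intro i hi
      induction i with
      | zero => exact ReflTransGen.refl
      | succ i ih => exact (ih (by omega)).tail ((openEdge_iff ..).1 (h i (by omega)))
    exact this n le_rfl
  · intro h
    induction h with
    | refl => exact ⟨0, fun _ => a, rfl, rfl, fun i hi j hj _ => by omega, fun i hi => by omega⟩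
    | @tail u v _ h2 ih =>
      obtain ⟨n, p, p0, p1, p2, p3⟩ := ih
      by_cases h : ∃ i ≤ n, p i = v
      · obtain ⟨i, hi, rfl⟩ := h
        exact ⟨i, p, p0, rfl, fun j hj k hk => p2 j (by omega) k (by omega),
          fun j hj => p3 j (by omega)⟩
      · push Not at h
        refine ⟨n + 1, update p (n + 1) v, by simpa using p0, by simp, fun i hi j hj => ?_,
          fun i hi => ?_⟩
        · rcases hi.eq_or_lt with rfl | hi <;> rcases hj.eq_or_lt with rfl | hj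
          · exact fun _ => rfl
          · rw [update_self, update_of_ne hj.ne]
            exact fun e => absurd e.symm (h j (by omega))
          · rw [update_self, update_of_ne hi.ne]
            exact fun e => absurd e (h i (by omega))
          · rw [update_of_ne hi.ne, update_of_ne hj.ne]
            exact p2 i (by omega) j (by omega)
        · rw [update_of_ne hi.ne]
          rcases (Nat.le_of_lt_succ hi).eq_or_lt with rfl | hi
          · rw [update_self, p1]; exact (openEdge_iff ..).2 h2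
          · rw [update_of_ne (by omega)]; exact p3 i hi

lemma meas_reach (ε : ℝ) (a b : V) : MeasurableSet {U : Cf | ReflTransGen (Opn ε U) a b} := by
  classical
  have : {U : Cf | ReflTransGen (Opn ε U) a b} = ⋃ Λ : Finset V, Conn ε Λ {a} {b} := by
    ext U
    simp only [mem_ofPred_eq, mem_iUnion]
    constructor
    · intro h
      induction h with
      | refl => exact ⟨{a}, a, rfl, a, rfl, by simp, ReflTransGen.refl⟩
      | @tail u v _ h2 ih =>
        obtain ⟨Λ, a', rfl, b', rfl, h3, h4⟩ := ih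
        refine ⟨insert v Λ, _, rfl, v, rfl, by simp [show _ ∈ Λ from h3], ?_⟩
        exact (h4.mono (by simp)).tail ⟨by simp [show _ ∈ Λ from h4.mem h3], by simp, h2⟩
    · rintro ⟨Λ, a', rfl, b', rfl, -, h4⟩
      exact h4.reach
  rw [this]
  exact MeasurableSet.iUnion fun Λ => (inc_conn ε Λ.finite_toSet _ _).meas

lemma meas_far (ε : ℝ) (r : ℤ) : MeasurableSet (Far ε r) := by
  have : Far ε r = ⋃ z : V, ⋃ (_ : r ≤ z.1), {U : Cf | ReflTransGen (Opn ε U) 0 z} ∩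
      {U : Cf | ReflTransGen (Opn ε U) z 0} := by
    ext U
    simp only [Far, mem_ofPred_eq, mem_iUnion, mem_inter_iff, exists_prop]
  rw [this]
  exact MeasurableSet.iUnion fun z => MeasurableSet.iUnion fun _ =>
    (meas_reach ..).inter (meas_reach ..)

lemma exit_box {R : V → V → Prop} (hR : ∀ u v, R u v → Adj u v) {n : ℤ} (hn : 0 ≤ n) {b : V}
    (h : ReflTransGen R 0 b) :
    (∃ c, (c.1 = n ∨ c.1 = -n ∨ c.2 = n ∨ c.2 = -n) ∧ DC R (Rc (-n) n (-n) n) 0 c) ∨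
      DC R (Rc (-n) n (-n) n) 0 b := by
  induction h with
  | refl => exact Or.inr ReflTransGen.refl
  | @tail u v _ h2 ih =>
    rcases ih with ih | ih
    · exact Or.inl ih
    have m := ih.mem (by simp [mem_Rc, hn])
    by_cases h3 : v ∈ Rc (-n) n (-n) n
    · exact Or.inr (ih.tail ⟨m, h3, h2⟩)
    · refine Or.inl ⟨u, ?_, ih⟩
      have := hR _ _ h2
      simp only [mem_Rc, Adj] at this m h3
      omega

lemma arm_bound (ε : ℝ) (n : ℕ) :
    law {U | {b | ReflTransGen (Opn ε U) 0 b}.Infinite} ≤ 8 * law (Arm ε n 0 n) := by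
  let C : Set V → Set Cf := fun T => Conn ε (Rc (-n) n (-n) n) (Rc 0 0 0 0) T
  have s : {U | {b | ReflTransGen (Opn ε U) 0 b}.Infinite} ⊆
      ((C (Rc n n 0 n) ∪ C (Rc n n (-n) 0)) ∪ (C (Rc (-n) (-n) 0 n) ∪ C (Rc (-n) (-n) (-n) 0))) ∪
      ((C (Rc 0 n n n) ∪ C (Rc (-n) 0 n n)) ∪
        (C (Rc 0 n (-n) (-n)) ∪ C (Rc (-n) 0 (-n) (-n)))) := by
    intro U hU
    obtain ⟨b, hb, hb2⟩ := Infinite.exists_notMem_finite hU (Rc_finite (-n) n (-n) n)
    have m0 : (0 : V) ∈ Rc (-n) n (-n) n := by simp [mem_Rc]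
    obtain ⟨c, c1, c2⟩ := (exit_box (opn_adj ε U) (Int.natCast_nonneg n) hb).resolve_right
      fun h => hb2 (h.mem m0)
    have m := mem_Rc.1 (c2.mem m0)
    have k : ∀ T, U ∉ C T → c ∉ T := fun T h h' => h ⟨0, by simp [mem_Rc], c, h', m0, c2⟩
    by_contra h
    simp only [mem_union, not_or] at h
    obtain ⟨⟨⟨h1, h2⟩, h3, h4⟩, ⟨h5, h6⟩, h7, h8⟩ := h
    have h1 := k _ h1
    have h2 := k _ h2
    have h3 := k _ h3
    have h4 := k _ h4
    have h5 := k _ h5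
    have h6 := k _ h6
    have h7 := k _ h7
    have h8 := k _ h8
    simp only [mem_Rc] at h1 h2 h3 h4 h5 h6 h7 h8
    omega
  have f := Rc_finite (-n) n (-n) n
  have e1 : law (C (Rc n n 0 n)) ≤ law (Arm ε n 0 n) := le_rfl
  have e2 : law (C (Rc n n (-n) 0)) ≤ law (Arm ε n 0 n) :=
    law_sym ε f (iso1 0 0 p1 n1) fun z => by simp only [mem_Rc]; omega
  have e3 : law (C (Rc (-n) (-n) 0 n)) ≤ law (Arm ε n 0 n) :=
    law_sym ε f (iso1 0 0 n1 p1) fun z => by simp only [mem_Rc]; omega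
  have e4 : law (C (Rc (-n) (-n) (-n) 0)) ≤ law (Arm ε n 0 n) :=
    law_sym ε f (iso1 0 0 n1 n1) fun z => by simp only [mem_Rc]; omega
  have e5 : law (C (Rc 0 n n n)) ≤ law (Arm ε n 0 n) :=
    law_sym ε f (iso2 0 0 p1 p1) fun z => by simp only [mem_Rc]; omega
  have e6 : law (C (Rc (-n) 0 n n)) ≤ law (Arm ε n 0 n) :=
    law_sym ε f (iso2 0 0 p1 n1) fun z => by simp only [mem_Rc]; omega
  have e7 : law (C (Rc 0 n (-n) (-n))) ≤ law (Arm ε n 0 n) :=
    law_sym ε f (iso2 0 0 n1 p1) fun z => by simp only [mem_Rc]; omega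
  have e8 : law (C (Rc (-n) 0 (-n) (-n))) ≤ law (Arm ε n 0 n) :=
    law_sym ε f (iso2 0 0 n1 n1) fun z => by simp only [mem_Rc]; omega
  have u : ∀ {A B : Set Cf} {x y : ℝ≥0∞}, law A ≤ x → law B ≤ y → law (A ∪ B) ≤ x + y :=
    fun h h' => (measure_union_le _ _).trans (add_le_add h h')
  refine (measure_mono s).trans ((u (u (u e1 e2) (u e3 e4)) (u (u e5 e6) (u e7 e8))).trans_eq ?_)
  ring

theorem strong_of_weak {ε : ℝ} (hε : 0 < ε)
    (h : 0 < law {U | {b | ReflTransGen (Opn ε U) 0 b}.Infinite}) :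
    0 < law {U | {b | ReflTransGen (Opn ε U) 0 b ∧ ReflTransGen (Opn ε U) b 0}.Infinite} := by
  obtain ⟨c, c0, hc⟩ := far_pos hε (ENNReal.div_pos h.ne' (b := 8) (by norm_num)) fun n =>
    ENNReal.div_le_of_le_mul' (arm_bound ε n)
  have an : Antitone fun N : ℕ => Far ε N := fun N N' hN U ⟨z, z1, z2⟩ =>
    ⟨z, le_trans (by exact_mod_cast hN) z1, z2⟩
  have e := an.measure_iInter (μ := law) (fun N => (meas_far ε N).nullMeasurableSet)
    ⟨0, measure_ne_top _ _⟩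
  refine c0.trans_le ((le_iInf hc).trans (e ▸ measure_mono fun U hU => ?_))
  intro hf
  obtain ⟨M, hM⟩ := (hf.image Prod.fst).bddAbove
  obtain ⟨z, z1, z2⟩ := mem_iInter.1 hU (M.toNat + 1)
  have := hM ⟨z, z2, rfl⟩
  omega

lemma law_anti (n : ℕ) (p : Fin n → V) :
    (n.factorial : ℝ≥0∞) * law {U | StrictAnti fun i => U (p i)} ≤ 1 := by
  classical
  by_cases hp : Injective p
  swap
  · have : {U : Cf | StrictAnti fun i => U (p i)} = ∅ :=
      eq_empty_of_forall_notMem fun U hU => hp (Injective.of_comp (f := U) hU.injective)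
    simp [this]
  let A : Set (Fin n → unitInterval) := {x | StrictAnti x}
  have mA : MeasurableSet A := by
    have : A = ⋂ i, ⋂ j, ⋂ (_ : i < j), {x | x j < x i} := by
      ext x; simp [A, StrictAnti]
    rw [this]
    exact MeasurableSet.iInter fun i => MeasurableSet.iInter fun j => MeasurableSet.iInter
      fun _ => measurableSet_lt (by fun_prop) (by fun_prop)
  have mp : ∀ σ : Equiv.Perm (Fin n), MeasurePreserving (fun (U : Cf) i => U (p (σ i))) law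
      (Measure.infinitePi fun _ => volume) := fun σ =>
    ⟨by fun_prop, Measure.map_infinitePi_infinitePi_of_inj (P := fun _ : V => volume)
      (hp.comp σ.injective)⟩
  have e : ∀ σ : Equiv.Perm (Fin n), law ((fun (U : Cf) i => U (p (σ i))) ⁻¹' A) =
      law {U | StrictAnti fun i => U (p i)} := fun σ =>
    ((mp σ).measure_preimage mA.nullMeasurableSet).trans
      ((mp 1).measure_preimage mA.nullMeasurableSet).symm
  have h := measure_iUnion (μ := law)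
    (f := fun σ : Equiv.Perm (Fin n) => (fun (U : Cf) i => U (p (σ i))) ⁻¹' A) ?_
    fun σ => (mp σ).measurable mA
  · rw [tsum_fintype] at h
    simp only [e, Finset.sum_const, Finset.card_univ, Fintype.card_perm, Fintype.card_fin,
      nsmul_eq_mul] at h
    rw [← h]
    exact prob_le_one
  · intro σ τ hst
    refine disjoint_left.2 fun U h1 h2 => hst ?_
    have h1 : StrictAnti ((fun i => U (p i)) ∘ σ) := h1
    have h2 : StrictAnti ((fun i => U (p i)) ∘ τ) := h2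
    have h3 := Tuple.unique_antitone h1.antitone h2.antitone
    have h4 : Injective fun i => U (p i) := (Injective.of_comp_iff' _ σ.bijective).1 h1.injective
    exact Equiv.ext fun i => h4 (congrFun h3 i)

theorem no_weak_zero : law {U | {b | Leads 0 U 0 b}.Infinite} = 0 := by
  classical
  let N4 : Finset V := {(1, 0), (-1, 0), (0, 1), (0, -1)}
  have key : ∀ n : ℕ, law {U | {b | Leads 0 U 0 b}.Infinite} ≤
      ENNReal.ofReal ((4 : ℝ) ^ n / n.factorial) := by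
    intro n
    let pos : (Fin n → V) → Fin n → V := fun d i =>
      ∑ j ∈ Finset.range i, if h : j < n then d ⟨j, h⟩ else 0
    have s : {U | {b | Leads 0 U 0 b}.Infinite} ⊆
        ⋃ d ∈ Fintype.piFinset fun _ : Fin n => N4, {U | StrictAnti fun i => U (pos d i)} := by
      intro U hU
      obtain ⟨b, ⟨k, p, p0, p1, -, p3⟩, hb2⟩ :=
        Infinite.exists_notMem_finite hU (Rc_finite (-n) n (-n) n)
      have bd : ∀ i ≤ k, p i ∈ Rc (-i) i (-i) i := by
        intro i hi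
        induction i with
        | zero => simp [p0, mem_Rc]
        | succ i ih =>
          have := ih (by omega)
          have h := ((openEdge_iff ..).1 (p3 i (by omega))).1
          simp only [mem_Rc, Adj] at this h ⊢
          omega
      have nk : n ≤ k := by
        have := bd k le_rfl
        rw [p1] at this
        simp only [mem_Rc] at this hb2
        omega
      simp only [mem_iUnion]
      refine ⟨fun j => p (j + 1) - p j, Fintype.mem_piFinset.2 fun j => ?_, ?_⟩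
      · rcases (p3 j (by omega)).1 with h | h | h | h <;> simp [h, N4]
      · have e : ∀ i : Fin n, pos (fun j => p (j + 1) - p j) i = p i := by
          intro i
          have : p i = ∑ j ∈ Finset.range i, (p (j + 1) - p j) := by
            rw [Finset.sum_range_sub, p0, sub_zero]
          rw [this]
          refine Finset.sum_congr rfl fun j hj => ?_
          rw [dif_pos ((Finset.mem_range.1 hj).trans i.2)]
        simp only [mem_ofPred_eq, e]
        have an : ∀ j ≤ k, ∀ i < j, U (p j) < U (p i) := by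
          intro j hj
          induction j with
          | zero => intro i hi; omega
          | succ j ih =>
            intro i hi
            have h : U (p (j + 1)) < U (p j) := by simpa using (p3 j (by omega)).2
            rcases (Nat.le_of_lt_succ hi).eq_or_lt with rfl | hi
            · exact h
            · exact h.trans (ih (by omega) i hi)
        exact fun i j hij => an j (by omega) i hij
    refine (measure_mono s).trans ((measure_biUnion_finset_le _ _).trans ?_)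
    have b : ∀ d ∈ Fintype.piFinset fun _ : Fin n => N4,
        law {U | StrictAnti fun i => U (pos d i)} ≤ (n.factorial : ℝ≥0∞)⁻¹ := fun d _ =>
      ENNReal.le_inv_iff_mul_le.2 (by rw [mul_comm]; exact law_anti n _)
    refine (Finset.sum_le_card_nsmul _ _ _ b).trans (le_of_eq ?_)
    have c4 : N4.card = 4 := by decide
    rw [Fintype.card_piFinset_const, c4, ENNReal.ofReal_div_of_pos (by positivity),
      ENNReal.ofReal_pow (by norm_num), ENNReal.ofReal_natCast, nsmul_eq_mul, div_eq_mul_inv]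
    simp
  have t := ENNReal.tendsto_ofReal (FloorSemiring.tendsto_pow_div_factorial_atTop (4 : ℝ))
  rw [ENNReal.ofReal_zero] at t
  exact le_antisymm (ge_of_tendsto' t key) zero_le

end Pool.Agent.MP_57c4af_pr

end
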